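import Pool.Agent.H923R2.FP.Stubs
import Pool.Agent.H923R2.FZ.Stubs1

/-! Task FR2 (helper265): the product of two free positive contractions. -/

set_option autoImplicit false

open scoped ComplexConjugate

noncomputable section

namespace Pool.Agent.H923R2.FZ.T_FR2

open Pool.Agent.H923R2.FP

section words

variable {B : Type} [CStarAlgebra B] {τ : B →ₗ[ℂ] ℂ} {F : Bool → StarSubalgebra ℂ B}

/-- value of a word -/
def val (w : List (Bool × B)) : B := (w.map Prod.snd).prod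

theorem val_nil : val ([] : List (Bool × B)) = 1 := rfl

theorem val_cons (z : Bool × B) (w : List (Bool × B)) : val (z :: w) = z.2 * val w := by
  simp [val]

theorem val_append (w w' : List (Bool × B)) : val (w ++ w') = val w * val w' := by
  simp [val]

/-- alternating centred words -/
structure Good (τ : B →ₗ[ℂ] ℂ) (F : Bool → StarSubalgebra ℂ B) (w : List (Bool × B)) : Prop where
  mem : ∀ z ∈ w, z.2 ∈ F z.1 ∧ τ z.2 = 0
  chain : w.IsChain (fun x y => x.1 ≠ y.1)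

/-- adjoint word -/
def adj (w : List (Bool × B)) : List (Bool × B) := (w.map fun z => (z.1, star z.2)).reverse

theorem val_adj (w : List (Bool × B)) : val (adj w) = star (val w) := by
  induction w with
  | nil => simp [adj, val]
  | cons z w ih =>
    have h1 : adj (z :: w) = adj w ++ [(z.1, star z.2)] := by simp [adj]
    rw [h1, val_append, ih, show val (z :: w) = z.2 * val w from val_cons z w, star_mul]
    simp [val]

theorem good_join (hτ : FTS τ) {w w' : List (Bool × B)} (h : Good τ F w) (h' : Good τ F w')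
    (hh : ∀ x ∈ w.head?, ∀ y ∈ w'.head?, x.1 ≠ y.1) : Good τ F (adj w ++ w') := by
  refine ⟨?_, ?_⟩
  · intro z hz
    rw [List.mem_append] at hz
    rcases hz with hz | hz
    · unfold adj at hz
      rw [List.mem_reverse, List.mem_map] at hz
      obtain ⟨y, hy, rfl⟩ := hz
      refine ⟨star_mem (h.mem y hy).1, ?_⟩
      show τ (star y.2) = 0
      rw [hτ.str, (h.mem y hy).2, map_zero]
    · exact h'.mem z hz
  · rw [List.isChain_append]
    refine ⟨?_, h'.chain, ?_⟩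
    · unfold adj
      rw [List.isChain_reverse, List.isChain_map]
      exact h.chain.imp fun a b hab => hab.symm
    · intro x hx y hy
      unfold adj at hx
      rw [List.getLast?_reverse, List.head?_map] at hx
      rw [Option.mem_def, Option.map_eq_some_iff] at hx
      obtain ⟨a, ha, rfl⟩ := hx
      exact hh a ha y hy

/-- combinations of words which do not start with `b` -/
def P (τ : B →ₗ[ℂ] ℂ) (F : Bool → StarSubalgebra ℂ B) (b : Bool) : Submodule ℂ B :=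
  Submodule.span ℂ {x | ∃ w, Good τ F w ∧ (∀ z ∈ w.head?, z.1 ≠ b) ∧ x = val w}

/-- combinations of words which start with `b` -/
def W (τ : B →ₗ[ℂ] ℂ) (F : Bool → StarSubalgebra ℂ B) (b : Bool) : Submodule ℂ B :=
  Submodule.span ℂ {x | ∃ w, Good τ F w ∧ (∃ z ∈ w.head?, z.1 = b) ∧ x = val w}

theorem bil (h : B) (X Y : Set B) (H : ∀ p ∈ X, ∀ x ∈ Y, τ (star p * h * x) = 0) :
    ∀ p ∈ Submodule.span ℂ X, ∀ x ∈ Submodule.span ℂ Y, τ (star p * h * x) = 0 := by
  intro p hp x hx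
  induction hx using Submodule.span_induction with
  | mem x hx =>
    induction hp using Submodule.span_induction with
    | mem p hp => exact H p hp x hx
    | zero => simp
    | add p q _ _ h1 h2 => rw [star_add, add_mul, add_mul, map_add, h1, h2, add_zero]
    | smul c p _ h1 => rw [star_smul, smul_mul_assoc, smul_mul_assoc, map_smul, h1, smul_zero]
  | zero => simp
  | add x y _ _ h1 h2 => rw [mul_add, map_add, h1, h2, add_zero]
  | smul c x _ h1 => rw [mul_smul_comm, map_smul, h1, smul_zero]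

theorem one_mem_P (b : Bool) : (1 : B) ∈ P τ F b := by
  refine Submodule.subset_span ⟨[], ⟨?_, ?_⟩, ?_, rfl⟩
  · intro z hz; simp at hz
  · exact List.isChain_nil
  · intro z hz; simp at hz

theorem W_le_P {b b' : Bool} (h : b ≠ b') : W τ F b ≤ P τ F b' := by
  refine Submodule.span_mono ?_
  rintro x ⟨w, hw, ⟨z, hz, hzb⟩, rfl⟩
  refine ⟨w, hw, ?_, rfl⟩
  intro y hy
  rw [Option.mem_def] at hz hy
  rw [hz] at hy
  rw [← Option.some_injective _ hy, hzb]
  exact h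

theorem orth (hτ : FTS τ) (hF : FreeFam τ F) {b : Bool} {p x : B} (hp : p ∈ P τ F b)
    (hx : x ∈ W τ F b) : τ (star p * x) = 0 := by
  have h1 := bil (τ := τ) 1 _ _ (by
    rintro _ ⟨w, hw, hwb, rfl⟩ _ ⟨w', hw', ⟨z, hz, hzb⟩, rfl⟩
    rw [mul_one, ← val_adj, ← val_append]
    have hg := good_join hτ hw hw' (by
      intro y hy y' hy'
      rw [Option.mem_def] at hz hy'
      rw [hz] at hy'
      rw [← Option.some_injective _ hy', hzb]
      exact hwb y hy)
    refine hF _ ?_ hg.mem hg.chain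
    intro h0
    rw [List.append_eq_nil_iff] at h0
    rw [h0.2] at hz
    simp at hz) p hp x hx
  rwa [mul_one] at h1

theorem good_cons {b : Bool} {h : B} (hb : h ∈ F b) (h0 : τ h = 0) {w : List (Bool × B)}
    (hw : Good τ F w) (hwb : ∀ z ∈ w.head?, z.1 ≠ b) : Good τ F ((b, h) :: w) := by
  refine ⟨?_, ?_⟩
  · intro z hz
    rw [List.mem_cons] at hz
    rcases hz with rfl | hz
    · exact ⟨hb, h0⟩
    · exact hw.mem z hz
  · rw [List.isChain_cons]
    exact ⟨fun y hy => (hwb y hy).symm, hw.chain⟩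

theorem cent (hτ : FTS τ) (hF : FreeFam τ F) {b : Bool} {h : B} (hb : h ∈ F b) (h0 : τ h = 0)
    {p p' : B} (hp : p ∈ P τ F b) (hp' : p' ∈ P τ F b) : τ (star p * h * p') = 0 := by
  refine bil (τ := τ) h _ _ ?_ p hp p' hp'
  rintro _ ⟨w, hw, hwb, rfl⟩ _ ⟨w', hw', hwb', rfl⟩
  have hg' := good_cons (τ := τ) hb h0 hw' hwb'
  have hg := good_join hτ hw hg' (by
    intro y hy y' hy'
    rw [List.head?_cons, Option.mem_def] at hy'
    rw [← Option.some_injective _ hy']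
    exact hwb y hy)
  have e : star (val w) * h * val w' = val (adj w ++ (b, h) :: w') := by
    rw [val_append, val_adj, val_cons, mul_assoc]
  rw [e]
  refine hF _ ?_ hg.mem hg.chain
  intro h0
  rw [List.append_eq_nil_iff] at h0
  simp at h0

/-- all combinations of words -/
def VV (τ : B →ₗ[ℂ] ℂ) (F : Bool → StarSubalgebra ℂ B) : Submodule ℂ B :=
  Submodule.span ℂ {x | ∃ w, Good τ F w ∧ x = val w}

theorem one_mem_VV : (1 : B) ∈ VV τ F := by
  refine Submodule.subset_span ⟨[], ⟨?_, ?_⟩, rfl⟩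
  · intro z hz; simp at hz
  · exact List.isChain_nil

theorem VV_decomp {ξ : B} (hξ : ξ ∈ VV τ F) : ∃ (c : ℂ) (x y : B), x ∈ W τ F true ∧
    y ∈ W τ F false ∧ ξ = c • 1 + x + y := by
  unfold VV at hξ
  induction hξ using Submodule.span_induction with
  | mem v hv =>
    obtain ⟨w, hw, rfl⟩ := hv
    cases w with
    | nil => exact ⟨1, 0, 0, zero_mem _, zero_mem _, by simp [val_nil]⟩
    | cons z w =>
      rcases hz : z.1 with _ | _
      · exact ⟨0, 0, _, zero_mem _, Submodule.subset_span ⟨_, hw, ⟨z, by simp, hz⟩, rfl⟩,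
          by simp⟩
      · exact ⟨0, _, 0, Submodule.subset_span ⟨_, hw, ⟨z, by simp, hz⟩, rfl⟩, zero_mem _,
          by simp⟩
  | zero => exact ⟨0, 0, 0, zero_mem _, zero_mem _, by simp⟩
  | add u v _ _ h1 h2 =>
    obtain ⟨c, x, y, hx, hy, rfl⟩ := h1
    obtain ⟨c', x', y', hx', hy', rfl⟩ := h2
    exact ⟨c + c', x + x', y + y', add_mem hx hx', add_mem hy hy', by rw [add_smul]; abel⟩
  | smul a u _ h1 =>
    obtain ⟨c, x, y, hx, hy, rfl⟩ := h1
    exact ⟨a * c, a • x, a • y, Submodule.smul_mem _ _ hx, Submodule.smul_mem _ _ hy, by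
      rw [smul_add, smul_add, smul_smul]⟩

theorem mul_val (hτ : FTS τ) {b : Bool} {a : B} (ha : a ∈ F b) {w : List (Bool × B)}
    (hw : Good τ F w) (hwb : ∀ z ∈ w.head?, z.1 ≠ b) : a * val w ∈ VV τ F := by
  have h1 : a * val w = τ a • val w + val ((b, a - τ a • 1) :: w) := by
    rw [val_cons]
    show a * val w = τ a • val w + (a - τ a • 1) * val w
    rw [sub_mul, smul_mul_assoc, one_mul]; abel
  rw [h1]
  refine add_mem (Submodule.smul_mem _ _ (Submodule.subset_span ⟨w, hw, rfl⟩)) ?_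
  refine Submodule.subset_span ⟨_, good_cons ?_ ?_ hw hwb, rfl⟩
  · exact sub_mem ha (SMulMemClass.smul_mem _ (one_mem _))
  · rw [map_sub, map_smul, hτ.one, smul_eq_mul, mul_one, sub_self]

theorem mul_VV (hτ : FTS τ) {b : Bool} {a : B} (ha : a ∈ F b) {v : B} (hv : v ∈ VV τ F) :
    a * v ∈ VV τ F := by
  unfold VV at hv
  induction hv using Submodule.span_induction with
  | mem v hv =>
    obtain ⟨w, hw, rfl⟩ := hv
    cases w with
    | nil => exact mul_val hτ ha hw (by intro z hz; simp at hz)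
    | cons z w =>
      by_cases hz : z.1 = b
      · have h1 := (hw.mem z (by simp)).1
        rw [hz] at h1
        rw [val_cons, ← mul_assoc]
        have hc := hw.chain
        rw [List.isChain_cons] at hc
        refine mul_val hτ (mul_mem ha h1) ⟨fun y hy => hw.mem y (by simp [hy]), hc.2⟩ ?_
        intro y hy
        rw [← hz]
        exact (hc.1 y hy).symm
      · refine mul_val hτ ha hw ?_
        intro y hy
        rw [List.head?_cons, Option.mem_def] at hy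
        rw [← Option.some_injective _ hy]
        exact hz
  | zero => rw [mul_zero]; exact zero_mem _
  | add u v _ _ h1 h2 => rw [mul_add]; exact add_mem h1 h2
  | smul c u _ h1 => rw [mul_smul_comm]; exact Submodule.smul_mem _ _ h1

theorem adjoin_VV (hτ : FTS τ) {a : B}
    (ha : a ∈ StarAlgebra.adjoin ℂ ((F true : Set B) ∪ (F false : Set B))) : a ∈ VV τ F := by
  have h1 : ∀ a ∈ StarAlgebra.adjoin ℂ ((F true : Set B) ∪ (F false : Set B)),
      (∀ v ∈ VV τ F, a * v ∈ VV τ F) ∧ ∀ v ∈ VV τ F, star a * v ∈ VV τ F := by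
    intro a ha
    induction ha using StarAlgebra.adjoin_induction with
    | mem x hx =>
      rcases hx with hx | hx
      · exact ⟨fun v hv => mul_VV hτ hx hv, fun v hv => mul_VV hτ (b := true) (star_mem hx) hv⟩
      · exact ⟨fun v hv => mul_VV hτ hx hv, fun v hv => mul_VV hτ (b := false) (star_mem hx) hv⟩
    | algebraMap r =>
      refine ⟨fun v hv => ?_, fun v hv => ?_⟩
      · rw [Algebra.algebraMap_eq_smul_one, smul_mul_assoc, one_mul]
        exact Submodule.smul_mem _ _ hv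
      · rw [Algebra.algebraMap_eq_smul_one, star_smul, star_one, smul_mul_assoc, one_mul]
        exact Submodule.smul_mem _ _ hv
    | add x y _ _ h1 h2 =>
      refine ⟨fun v hv => ?_, fun v hv => ?_⟩
      · rw [add_mul]; exact add_mem (h1.1 v hv) (h2.1 v hv)
      · rw [star_add, add_mul]; exact add_mem (h1.2 v hv) (h2.2 v hv)
    | mul x y _ _ h1 h2 =>
      refine ⟨fun v hv => ?_, fun v hv => ?_⟩
      · rw [mul_assoc]; exact h1.1 _ (h2.1 v hv)
      · rw [star_mul, mul_assoc]; exact h2.2 _ (h1.2 v hv)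
    | star x _ h1 =>
      refine ⟨h1.2, fun v hv => ?_⟩
      rw [star_star]; exact h1.1 v hv
  have h2 := (h1 a ha).1 1 one_mem_VV
  rwa [mul_one] at h2

end words

section ineq

variable {B : Type} [CStarAlgebra B] {τ : B →ₗ[ℂ] ℂ}

theorem nt_sq (hT1 : S_T1) (hτ : FTS τ) (x : B) : nt τ x ^ 2 = (τ (star x * x)).re := by
  have h := (hT1 B τ hτ).2.2.2.2.2.2.1 x
  have h2 := congrArg Complex.re h
  rwa [← Complex.ofReal_pow, Complex.ofReal_re] at h2

theorem exists_root {k : B} (hk : PC k) : ∃ c : B, star c = c ∧ c * c = k - k * k := by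
  refine ⟨cfc (fun t : ℝ => Real.sqrt (t - t * t)) k, ?_, ?_⟩
  · exact (cfc_predicate (R := ℝ) (fun t : ℝ => Real.sqrt (t - t * t)) k : IsSelfAdjoint _)
  · have hk1 : IsSelfAdjoint k := hk.1
    have h1 : ContinuousOn (fun t : ℝ => Real.sqrt (t - t * t)) (spectrum ℝ k) :=
      (by fun_prop : Continuous (fun t : ℝ => Real.sqrt (t - t * t))).continuousOn
    rw [← cfc_mul _ _ k h1 h1]
    have h2 : cfc (fun t : ℝ => Real.sqrt (t - t * t) * Real.sqrt (t - t * t)) k =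
        cfc (fun t : ℝ => t - t * t) k := by
      refine cfc_congr ?_
      intro t ht
      have h3 := hk.2 ht
      show Real.sqrt (t - t * t) * Real.sqrt (t - t * t) = t - t * t
      exact Real.mul_self_sqrt (by nlinarith [h3.1, h3.2])
    rw [h2, cfc_sub (fun t : ℝ => t) (fun t : ℝ => t * t) k (by fun_prop) (by fun_prop),
      cfc_mul (fun t : ℝ => t) (fun t : ℝ => t) k (by fun_prop) (by fun_prop),
      cfc_id' ℝ k]

/-- `‖ξ - kξ‖² ≤ ‖ξ‖² - ‖kξ‖²` -/
theorem contr (hT1 : S_T1) (hτ : FTS τ) {k : B} (hk : PC k) (ξ : B) :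
    nt τ (ξ - k * ξ) ^ 2 ≤ nt τ ξ ^ 2 - nt τ (k * ξ) ^ 2 := by
  obtain ⟨c, hc1, hc2⟩ := exists_root hk
  have hks : star k = k := hk.1
  have e1 : star (c * ξ) * (c * ξ) = star ξ * (k - k * k) * ξ := by
    rw [star_mul, hc1, ← hc2]; noncomm_ring
  have e : star (ξ - k * ξ) * (ξ - k * ξ) = star ξ * ξ - star (k * ξ) * (k * ξ) -
      (star (c * ξ) * (c * ξ) + star (c * ξ) * (c * ξ)) := by
    rw [e1, star_sub, star_mul, hks]; noncomm_ring
  rw [nt_sq hT1 hτ, nt_sq hT1 hτ, nt_sq hT1 hτ, e, map_sub, map_sub, map_add, Complex.sub_re,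
    Complex.sub_re, Complex.add_re]
  have := hτ.nonneg (c * ξ)
  linarith

theorem pyth (hT1 : S_T1) (hτ : FTS τ) {p x : B} (h : τ (star p * x) = 0) :
    nt τ (p + x) ^ 2 = nt τ p ^ 2 + nt τ x ^ 2 := by
  have h2 : τ (star x * p) = 0 := by
    have e : star x * p = star (star p * x) := by rw [star_mul, star_star]
    rw [e, hτ.str, h, map_zero]
  rw [nt_sq hT1 hτ, nt_sq hT1 hτ, nt_sq hT1 hτ]
  have e : star (p + x) * (p + x) = star p * p + star x * x + (star p * x + star x * p) := by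
    rw [star_add]; noncomm_ring
  rw [e, map_add, map_add, map_add, h, h2, add_zero, add_zero, Complex.add_re]

theorem arith (a b s : ℝ) (ha0 : 0 ≤ a) (hb0 : 0 ≤ b) (hs0 : 0 ≤ s) (hθ : a ^ 2 + b ^ 2 < 1)
    (hs2 : s ^ 2 = 2 * ((1 - a ^ 2 - b ^ 2) ^ 2 / 1000)) :
    (a + 3 * s) ^ 2 + (b + s) ^ 2 < 1 := by
  have ha1 : a ≤ 1 := by nlinarith [sq_nonneg b]
  have hb1 : b ≤ 1 := by nlinarith [sq_nonneg a]
  obtain ⟨r, hr⟩ : ∃ r : ℝ, r = 1 - a ^ 2 - b ^ 2 := ⟨_, rfl⟩
  rw [← hr] at hs2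
  have hr0 : 0 < r := by rw [hr]; linarith
  have hr1 : r ≤ 1 := by rw [hr]; linarith [sq_nonneg a, sq_nonneg b]
  have hs3 : s ^ 2 = r ^ 2 / 500 := by rw [hs2]; ring
  have hs4 : s ≤ r / 22 := by
    have h1 : s ^ 2 ≤ (r / 22) ^ 2 := by
      rw [hs3, div_pow]
      have := sq_nonneg r
      linarith
    exact (pow_le_pow_iff_left₀ hs0 (by positivity) two_ne_zero).1 h1
  have h1 : a * s ≤ 1 * s := mul_le_mul_of_nonneg_right ha1 hs0
  have h2 : b * s ≤ 1 * s := mul_le_mul_of_nonneg_right hb1 hs0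
  have h3 : r ^ 2 ≤ r := by rw [sq]; exact mul_le_of_le_one_left hr0.le hr1
  have h4 : (a + 3 * s) ^ 2 + (b + s) ^ 2 =
      (1 - r) + 6 * (a * s) + 2 * (b * s) + 10 * s ^ 2 := by
    rw [hr]; ring
  rw [h4, hs3]
  linarith

variable {F : Bool → StarSubalgebra ℂ B}

theorem nt_mul (hT1 : S_T1) (hτ : FTS τ) (hF : FreeFam τ F) {b : Bool} {g p : B} (hg : g ∈ F b)
    (hgs : star g = g) (hp : p ∈ P τ F b) : nt τ (g * p) = nt τ g * nt τ p := by
  have T1 := hT1 B τ hτ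
  have h0 := cent hτ hF (h := g * g - τ (g * g) • 1)
    (sub_mem (mul_mem hg hg) (SMulMemClass.smul_mem _ (one_mem _)))
    (by rw [map_sub, map_smul, hτ.one, smul_eq_mul, mul_one, sub_self]) hp hp
  have h1 : τ (star p * (g * g) * p) = τ (g * g) * τ (star p * p) := by
    have e : star p * (g * g - τ (g * g) • 1) * p =
      star p * (g * g) * p - τ (g * g) • (star p * p) := by
      rw [mul_sub, sub_mul, mul_smul_comm, mul_one, smul_mul_assoc]
    rw [e, map_sub, map_smul, smul_eq_mul, sub_eq_zero] at h0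
    exact h0
  have h2 : (nt τ (g * p) : ℂ) ^ 2 = (nt τ g : ℂ) ^ 2 * (nt τ p : ℂ) ^ 2 := by
    rw [T1.2.2.2.2.2.2.1, T1.2.2.2.2.2.2.1, T1.2.2.2.2.2.2.1, hgs, ← h1, star_mul, hgs]
    congr 1
    noncomm_ring
  have h3 : nt τ (g * p) ^ 2 = (nt τ g * nt τ p) ^ 2 := by
    rw [mul_pow]; exact_mod_cast h2
  have h4 := T1.2.2.2.2.2.2.2
  exact (pow_left_inj₀ (h4 _) (mul_nonneg (h4 _) (h4 _)) two_ne_zero).1 h3

theorem half (hT1 : S_T1) (hτ : FTS τ) (hF : FreeFam τ F) {b : Bool} {g p x : B} (hg : g ∈ F b)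
    (hgs : star g = g) (hp : p ∈ P τ F b) (hx : x ∈ W τ F b) (t : ℝ)
    (ht : nt τ ((p + x) - g * (p + x)) ≤ t) : nt τ p ≤ nt τ g * nt τ (p + x) + t := by
  have T1 := hT1 B τ hτ
  have nn := T1.2.2.2.2.2.2.2
  set ξ := p + x with hξ
  have h1 : nt τ p ^ 2 ≤ nt τ p * (nt τ g * nt τ ξ + t) := by
    have e1 : τ (star p * p) = τ (star (g * p) * ξ) + τ (star p * (ξ - g * ξ)) := by
      have e2 : τ (star p * ξ) = τ (star p * p) := by
        rw [hξ, mul_add, map_add, orth hτ hF hp hx, add_zero]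
      rw [← e2, ← map_add, star_mul, hgs]
      congr 1
      noncomm_ring
    rw [nt_sq hT1 hτ, e1, Complex.add_re]
    have h2 := (Complex.re_le_norm _).trans (T1.1 (g * p) ξ)
    have h3 := (Complex.re_le_norm _).trans (T1.1 p (ξ - g * ξ))
    rw [nt_mul hT1 hτ hF hg hgs hp] at h2
    have h4 := mul_le_mul_of_nonneg_left ht (nn p)
    nlinarith
  rcases eq_or_lt_of_le (nn p) with h0 | h0
  · rw [← h0]
    have := mul_nonneg (nn g) (nn ξ)
    linarith [(nn (ξ - g * ξ)).trans ht]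
  · rw [sq] at h1
    exact le_of_mul_le_mul_left h1 h0

theorem main_ineq (hT1 : S_T1) (hτ : FTS τ) (hF : FreeFam τ F) {g k : B} (hg : g ∈ F true)
    (hk : k ∈ F false) (hgp : PC g) (hkp : PC k)
    (hθ : (τ (g * g)).re + (τ (k * k)).re < 1) (ξ : B) (hξ : ξ ∈ VV τ F) :
    nt τ (g * k * ξ) ≤ (1 - (1 - (τ (g * g)).re - (τ (k * k)).re) ^ 2 / 1000) * nt τ ξ := by
  have T1 := hT1 B τ hτ
  have nn := T1.2.2.2.2.2.2.2
  have hgs : star g = g := hgp.1
  have hks : star k = k := hkp.1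
  have ha2 : (τ (g * g)).re = nt τ g ^ 2 := by rw [nt_sq hT1 hτ, hgs]
  have hb2 : (τ (k * k)).re = nt τ k ^ 2 := by rw [nt_sq hT1 hτ, hks]
  rw [ha2, hb2] at hθ ⊢
  set a := nt τ g with ha
  set b := nt τ k with hb
  have ha0 : 0 ≤ a := nn g
  have hb0 : 0 ≤ b := nn k
  set δ := (1 - a ^ 2 - b ^ 2) ^ 2 / 1000 with hδ
  set N := nt τ ξ with hN
  have hN0 : 0 ≤ N := nn ξ
  by_contra hcon
  push Not at hcon
  have hδ0 : 0 ≤ δ := by positivity
  have hδ1 : δ ≤ 1 / 1000 := by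
    have h1 : (1 - a ^ 2 - b ^ 2) ^ 2 ≤ 1 := by nlinarith [sq_nonneg a, sq_nonneg b]
    rw [hδ]; linarith
  have hc1 := contr hT1 hτ hkp ξ
  have hc2 := contr hT1 hτ hgp (k * ξ)
  rw [← mul_assoc] at hc2
  set u := nt τ (g * k * ξ) with hu
  have hlow : 0 ≤ (1 - δ) * N := mul_nonneg (by linarith) hN0
  have hu2 : ((1 - δ) * N) ^ 2 ≤ u ^ 2 := pow_le_pow_left₀ hlow hcon.le 2
  have hk2 : u ^ 2 ≤ nt τ (k * ξ) ^ 2 := by nlinarith [sq_nonneg (nt τ (k * ξ - g * k * ξ))]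
  have hkN : nt τ (k * ξ) ^ 2 ≤ N ^ 2 := by nlinarith [sq_nonneg (nt τ (ξ - k * ξ))]
  -- `N > 0`
  have hNpos : 0 < N := by
    rcases eq_or_lt_of_le hN0 with h | h
    · exfalso
      rw [← h] at hcon hkN
      rw [mul_zero] at hcon
      nlinarith
    · exact h
  set s := Real.sqrt (2 * δ) with hs
  have hs0 : 0 ≤ s := Real.sqrt_nonneg _
  have hs2 : s ^ 2 = 2 * δ := Real.sq_sqrt (by linarith)
  have hfac : N ^ 2 - ((1 - δ) * N) ^ 2 ≤ (s * N) ^ 2 := by
    rw [mul_pow s, hs2]; nlinarith [sq_nonneg (δ * N)]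
  have d1 : nt τ (ξ - k * ξ) ≤ s * N := by
    have h1 : nt τ (ξ - k * ξ) ^ 2 ≤ (s * N) ^ 2 := by linarith
    exact (pow_le_pow_iff_left₀ (nn _) (mul_nonneg hs0 hN0) two_ne_zero).1 h1
  have d2 : nt τ (k * ξ - g * k * ξ) ≤ s * N := by
    have h1 : nt τ (k * ξ - g * k * ξ) ^ 2 ≤ (s * N) ^ 2 := by linarith
    exact (pow_le_pow_iff_left₀ (nn _) (mul_nonneg hs0 hN0) two_ne_zero).1 h1
  have d3 : nt τ (ξ - g * ξ) ≤ 3 * (s * N) := by
    have e : ξ - g * ξ = (ξ - k * ξ) + ((k * ξ - g * k * ξ) + (-1 : ℂ) • (g * (ξ - k * ξ))) := by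
      rw [neg_one_smul]; noncomm_ring
    have h1 := T1.2.1 (ξ - k * ξ) ((k * ξ - g * k * ξ) + (-1 : ℂ) • (g * (ξ - k * ξ)))
    have h2 := T1.2.1 (k * ξ - g * k * ξ) ((-1 : ℂ) • (g * (ξ - k * ξ)))
    have h3 := T1.2.2.2.2.1 (-1 : ℂ) (g * (ξ - k * ξ))
    rw [norm_neg, norm_one, one_mul] at h3
    have h4 := contr hT1 hτ hgp (ξ - k * ξ)
    have h5 : nt τ (g * (ξ - k * ξ)) ≤ nt τ (ξ - k * ξ) := by
      have h6 : nt τ (g * (ξ - k * ξ)) ^ 2 ≤ nt τ (ξ - k * ξ) ^ 2 := by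
        nlinarith [sq_nonneg (nt τ ((ξ - k * ξ) - g * (ξ - k * ξ)))]
      exact (pow_le_pow_iff_left₀ (nn _) (nn _) two_ne_zero).1 h6
    rw [e]
    linarith
  -- decomposition
  obtain ⟨c, x, y, hx, hy, hdec⟩ := VV_decomp hξ
  have hc1 : ∀ b : Bool, c • (1 : B) ∈ P τ F b := fun b => Submodule.smul_mem _ _ (one_mem_P b)
  have hp : c • 1 + y ∈ P τ F true := add_mem (hc1 true) (W_le_P (by decide) hy)
  have hq : c • 1 + x ∈ P τ F false := add_mem (hc1 false) (W_le_P (by decide) hx)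
  have e1 : ξ = (c • 1 + y) + x := by rw [hdec]; abel
  have e2 : ξ = (c • 1 + x) + y := by rw [hdec]
  have hp1 : nt τ (c • 1 + y) ≤ a * N + 3 * (s * N) := by
    have h := half hT1 hτ hF hg hgs hp hx (3 * (s * N)) (by rw [← e1]; exact d3)
    rwa [← e1] at h
  have hq1 : nt τ (c • 1 + x) ≤ b * N + s * N := by
    have h := half hT1 hτ hF hk hks hq hy (s * N) (by rw [← e2]; exact d1)
    rwa [← e2] at h
  have hN2 : N ^ 2 = nt τ (c • 1 + y) ^ 2 + nt τ x ^ 2 := by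
    rw [hN, e1]; exact pyth hT1 hτ (orth hτ hF hp hx)
  have hx2 : nt τ x ^ 2 ≤ nt τ (c • 1 + x) ^ 2 := by
    rw [pyth hT1 hτ (orth hτ hF (hc1 true) hx)]
    nlinarith [sq_nonneg (nt τ (c • (1 : B)))]
  have hp2 : nt τ (c • 1 + y) ^ 2 ≤ (a * N + 3 * (s * N)) ^ 2 := pow_le_pow_left₀ (nn _) hp1 2
  have hq2 : nt τ (c • 1 + x) ^ 2 ≤ (b * N + s * N) ^ 2 := pow_le_pow_left₀ (nn _) hq1 2
  have hfin : N ^ 2 ≤ ((a + 3 * s) ^ 2 + (b + s) ^ 2) * N ^ 2 := by
    have e : ((a + 3 * s) ^ 2 + (b + s) ^ 2) * N ^ 2 =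
      (a * N + 3 * (s * N)) ^ 2 + (b * N + s * N) ^ 2 := by ring
    rw [e]; linarith
  have hlt : (a + 3 * s) ^ 2 + (b + s) ^ 2 < 1 := arith a b s ha0 hb0 hs0 hθ hs2
  have hN3 : 0 < N ^ 2 := by positivity
  nlinarith

end ineq

theorem t_FR2 (hT1 : S_T1) (hT2 : S_T2) : S_FR2 := by
  intro B _ τ hτ S T hF g hg k hk hgp hkp hθ
  set F : Bool → StarSubalgebra ℂ B := fun b => if b then S else T with hFdef
  have hgF : g ∈ F true := hg
  have hkF : k ∈ F false := hk
  set D : StarSubalgebra ℂ B := StarAlgebra.adjoin ℂ ((F true : Set B) ∪ (F false : Set B)) with hD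
  set E : StarSubalgebra ℂ B := D.topologicalClosure with hE
  have hcl : IsClosed (E : Set B) := D.isClosed_topologicalClosure
  have T1 := hT1 B τ hτ
  have hDE : D ≤ E := D.le_topologicalClosure
  have hgE : g ∈ E := hDE (StarAlgebra.subset_adjoin ℂ _ (Or.inl hgF))
  have hkE : k ∈ E := hDE (StarAlgebra.subset_adjoin ℂ _ (Or.inr hkF))
  -- the restricted trace
  let σ : E →ₗ[ℂ] ℂ := τ.comp E.toSubalgebra.toSubmodule.subtype
  have hσ : ∀ x : E, σ x = τ (x : B) := fun x => rfl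
  have hFTS : FTS σ := by
    refine ⟨hτ.one, fun x y => hτ.comm x y, fun x => hτ.str x, fun x => hτ.nonneg x, ?_,
      fun x => hτ.bound x⟩
    intro x hx
    exact Subtype.ext (hτ.faith x hx)
  have hnt : ∀ x : E, nt σ x = nt τ (x : B) := fun x => rfl
  set δ := (1 - (τ (g * g)).re - (τ (k * k)).re) ^ 2 / 1000 with hδ
  have hg0 : 0 ≤ (τ (g * g)).re := by
    have h := hτ.nonneg g
    rwa [show star g = g from hgp.1] at h
  have hk0 : 0 ≤ (τ (k * k)).re := by
    have h := hτ.nonneg k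
    rwa [show star k = k from hkp.1] at h
  have hδ1 : δ ≤ 1 := by
    have h1 : (1 - (τ (g * g)).re - (τ (k * k)).re) ^ 2 ≤ 1 := by nlinarith
    rw [hδ]; linarith
  have h := hT2 E σ hFTS (⟨g, hgE⟩ * ⟨k, hkE⟩) (1 - δ) (by linarith) ?_
  · exact h
  intro ξ
  have nn := T1.2.2.2.2.2.2.2
  show nt τ (g * k * (ξ : B)) ≤ (1 - δ) * nt τ (ξ : B)
  refine le_of_forall_pos_le_add fun ε hε => ?_
  have hpos : 0 < ‖g * k‖ + 2 := by positivity
  have hmem : (ξ : B) ∈ closure (D : Set B) := by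
    rw [← StarSubalgebra.topologicalClosure_coe]
    exact ξ.2
  obtain ⟨η, hη, hd⟩ := Metric.mem_closure_iff.1 hmem (ε / (‖g * k‖ + 2)) (by positivity)
  rw [dist_eq_norm] at hd
  have h1 := main_ineq hT1 hτ hF hgF hkF hgp hkp hθ η (adjoin_VV hτ hη)
  have e1 : g * k * (ξ : B) = g * k * η + g * k * ((ξ : B) - η) := by noncomm_ring
  have e2 : η = (ξ : B) + (-1 : ℂ) • ((ξ : B) - η) := by rw [neg_one_smul]; abel
  have h2 : nt τ (g * k * (ξ : B)) ≤ nt τ (g * k * η) + ‖g * k‖ * nt τ ((ξ : B) - η) := by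
    rw [e1]
    exact (T1.2.1 _ _).trans (by linarith [T1.2.2.1 (g * k) ((ξ : B) - η)])
  have h3 : nt τ η ≤ nt τ (ξ : B) + nt τ ((ξ : B) - η) := by
    have h4 := T1.2.1 (ξ : B) ((-1 : ℂ) • ((ξ : B) - η))
    have h5 := T1.2.2.2.2.1 (-1 : ℂ) ((ξ : B) - η)
    rw [norm_neg, norm_one, one_mul] at h5
    rw [h5, ← e2] at h4
    exact h4
  have h6 : nt τ ((ξ : B) - η) ≤ ε / (‖g * k‖ + 2) :=
    (T1.2.2.2.2.2.1 _).trans hd.le
  have h7 : (‖g * k‖ + 2) * (ε / (‖g * k‖ + 2)) = ε := by field_simp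
  have hδ0 : 0 ≤ δ := by positivity
  have h8 : (1 - δ) * nt τ η ≤ (1 - δ) * (nt τ (ξ : B) + nt τ ((ξ : B) - η)) :=
    mul_le_mul_of_nonneg_left h3 (by linarith)
  have h9 : (1 - δ) * nt τ ((ξ : B) - η) ≤ 1 * nt τ ((ξ : B) - η) :=
    mul_le_mul_of_nonneg_right (by linarith) (nn _)
  have h10 : (‖g * k‖ + 1) * nt τ ((ξ : B) - η) ≤ (‖g * k‖ + 2) * (ε / (‖g * k‖ + 2)) :=
    mul_le_mul (by linarith) h6 (nn _) hpos.le
  have h11 : nt τ (g * k * η) ≤ (1 - δ) * nt τ η := h1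
  nlinarith

end Pool.Agent.H923R2.FZ.T_FR2
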