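import Pool.Agent.H265R2.CritP4b

set_option autoImplicit false

namespace Pool.Agent.H265R2.P5

open Finset Classical
open Pool.Agent.H265R2.CritP4

universe u

variable {V : Type u}

/-- No induced path on five vertices, in elementary terms. -/
def NoP5 (G : SimpleGraph V) : Prop :=
  ∀ a b c d e : V, G.Adj a b → G.Adj b c → G.Adj c d → G.Adj d e →
    ¬ G.Adj a c → ¬ G.Adj a d → ¬ G.Adj a e → ¬ G.Adj b d → ¬ G.Adj b e → ¬ G.Adj c e → False

theorem cross5 (G : SimpleGraph V) (hP : NoP5 G) (I : Finset V)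
    (hI : ∀ x ∈ I, ∀ y ∈ I, ¬ G.Adj x y) (u u' : V) (hadj : ¬ G.Adj u u') :
    nb G I u ⊆ nb G I u' ∨ nb G I u' ⊆ nb G I u ∨ Disjoint (nb G I u) (nb G I u') := by
  by_contra hcon
  push Not at hcon
  obtain ⟨h1, h2, h3⟩ := hcon
  obtain ⟨a, ha, ha'⟩ := Finset.not_subset.1 h1
  obtain ⟨b, hb, hb'⟩ := Finset.not_subset.1 h2
  obtain ⟨c, hc1, hc2⟩ := Finset.not_disjoint_iff.1 h3
  rw [mem_nb] at ha hb hc1 hc2
  have hau' : ¬ G.Adj u' a := fun h => ha' (mem_nb.2 ⟨ha.1, h⟩)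
  have hbu : ¬ G.Adj u b := fun h => hb' (mem_nb.2 ⟨hb.1, h⟩)
  exact hP a u c u' b ha.2.symm hc1.2 hc2.2.symm hb.2 (hI a ha.1 c hc1.1) (fun h => hau' h.symm)
    (hI a ha.1 b hb.1) hadj hbu (hI c hc1.1 b hb.1)

/-- Reachability inside the vertex set described by `A`. -/
def Reach (G : SimpleGraph V) (A : V → Prop) : V → V → Prop :=
  Relation.ReflTransGen (fun a b => A a ∧ A b ∧ G.Adj a b)

theorem Reach.symm' {G : SimpleGraph V} {A : V → Prop} {x y : V} (h : Reach G A x y) :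
    Reach G A y x := by
  induction h with
  | refl => exact Relation.ReflTransGen.refl
  | tail _ h2 ih => exact Relation.ReflTransGen.head ⟨h2.2.1, h2.1, h2.2.2.symm⟩ ih

theorem Reach.mem {G : SimpleGraph V} {A : V → Prop} {x y : V} (hx : A x) (h : Reach G A x y) :
    A y := by
  induction h with
  | refl => exact hx
  | tail _ h2 _ => exact h2.2.1

/-- A property that changes between two connected vertices changes along an edge. -/
theorem exists_edge {G : SimpleGraph V} {A : V → Prop} (P : V → Prop) {x y : V}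
    (h : Reach G A x y) (hx : P x) (hy : ¬ P y) :
    ∃ a b, Reach G A x a ∧ Reach G A x b ∧ G.Adj a b ∧ P a ∧ ¬ P b := by
  induction h with
  | refl => exact absurd hx hy
  | @tail b c h1 h2 ih =>
    by_cases hb : P b
    · exact ⟨b, c, h1, h1.tail h2, h2.2.2, hb, hy⟩
    · exact ih hb

/-- In a `P₅`-free graph a vertex is mixed on at most one of two anticomplete connected sets. -/
theorem not_mixed_twice (G : SimpleGraph V) (hP : NoP5 G) {A B : V → Prop} {q x y x' y' : V}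
    (h1 : Reach G A x y) (hx : G.Adj q x) (hy : ¬ G.Adj q y)
    (h2 : Reach G B x' y') (hx' : G.Adj q x') (hy' : ¬ G.Adj q y')
    (hanti : ∀ a b, Reach G A x a → Reach G B x' b → ¬ G.Adj a b) : False := by
  obtain ⟨a, v, ha, hv, hav, hqa, hqv⟩ := exists_edge (fun z => G.Adj q z) h1 hx hy
  obtain ⟨a', v', ha', hv', hav', hqa', hqv'⟩ := exists_edge (fun z => G.Adj q z) h2 hx' hy'
  have hqa2 : G.Adj q a := hqa
  exact hP v a q a' v' hav.symm hqa2.symm hqa' hav' (fun h => hqv h.symm)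
    (hanti v a' hv ha') (hanti v v' hv hv') (hanti a a' ha ha') (hanti a v' ha hv') hqv'

/-- In a `P₅`-free graph every vertex of a connected set is within distance three. -/
theorem reach_three (G : SimpleGraph V) (hP : NoP5 G) (A : V → Prop) (x : V) (y : V)
    (h : Reach G A x y) :
    y = x ∨ (A y ∧ G.Adj x y) ∨ (A y ∧ ∃ z, A z ∧ G.Adj x z ∧ G.Adj z y) ∨
      (A y ∧ ∃ w, (A w ∧ ∃ z, A z ∧ G.Adj x z ∧ G.Adj z w) ∧ ¬ G.Adj x w ∧ G.Adj w y) := by
  induction h with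
  | refl => exact Or.inl rfl
  | @tail b c h1 h2 ih =>
    obtain ⟨hAb, hAc, hbc⟩ := h2
    by_cases hc1 : c = x
    · exact Or.inl hc1
    by_cases hc2 : G.Adj x c
    · exact Or.inr (Or.inl ⟨hAc, hc2⟩)
    by_cases hc3 : ∃ z, A z ∧ G.Adj x z ∧ G.Adj z c
    · exact Or.inr (Or.inr (Or.inl ⟨hAc, hc3⟩))
    push Not at hc3
    rcases ih with h | h | h | h
    · exact absurd (h ▸ hbc) hc2
    · exact absurd hbc (hc3 b h.1 h.2)
    · obtain ⟨hb1, z, hz, hxz, hzb⟩ := h
      by_cases hxb : G.Adj x b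
      · exact absurd hbc (hc3 b hb1 hxb)
      · exact Or.inr (Or.inr (Or.inr ⟨hAc, b, ⟨hb1, z, hz, hxz, hzb⟩, hxb, hbc⟩))
    · obtain ⟨hb1, w, ⟨hw1, z, hz, hxz, hzw⟩, hxw, hwb⟩ := h
      by_cases hwc : G.Adj w c
      · exact Or.inr (Or.inr (Or.inr ⟨hAc, w, ⟨hw1, z, hz, hxz, hzw⟩, hxw, hwc⟩))
      by_cases hxb : G.Adj x b
      · exact absurd hbc (hc3 b hb1 hxb)
      by_cases hzb : G.Adj z b
      · exact Or.inr (Or.inr (Or.inr ⟨hAc, b, ⟨hb1, z, hz, hxz, hzb⟩, hxb, hbc⟩))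
      exact (hP x z w b c hxz hzw hwb hbc hxw hxb hc2 hzb (hc3 z hz hxz) hwc).elim

/-- A family of sets any two of which are nested unless the indices are adjacent is covered by
the sets of a clique. -/
theorem clique_cover (G : SimpleGraph V) (c : ℕ)
    (hclique : ∀ S : Finset V, (∀ x ∈ S, ∀ y ∈ S, x ≠ y → G.Adj x y) → S.card ≤ c)
    (F : Finset V) (f : V → Finset V) (t : ℕ) (ht : ∀ u ∈ F, (f u).card ≤ t)
    (hnest : ∀ u ∈ F, ∀ v ∈ F, ¬ G.Adj u v → (∃ x ∈ f u, x ∉ f v) → (∃ x ∈ f v, x ∉ f u) → u = v) :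
    (F.biUnion f).card ≤ c * t := by
  -- take a minimal subfamily with the same union
  have hfam : ((F.powerset).filter (fun S => S.biUnion f = F.biUnion f)).Nonempty :=
    ⟨F, Finset.mem_filter.2 ⟨Finset.mem_powerset.2 subset_rfl, rfl⟩⟩
  obtain ⟨S, hS, hmin⟩ := Finset.exists_min_image _ (fun A : Finset V => A.card) hfam
  rw [Finset.mem_filter, Finset.mem_powerset] at hS
  have hpriv : ∀ u ∈ S, ∃ x ∈ f u, ∀ v ∈ S, v ≠ u → x ∉ f v := by
    intro u hu
    by_contra hcon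
    push Not at hcon
    have hun : (S.erase u).biUnion f = F.biUnion f := by
      rw [← hS.2]
      apply Finset.Subset.antisymm
      · exact Finset.biUnion_subset_biUnion_of_subset_left _ (Finset.erase_subset _ _)
      · intro x hx
        obtain ⟨v, hv, hxv⟩ := Finset.mem_biUnion.1 hx
        by_cases hvu : v = u
        · obtain ⟨w, hw, hwu, hxw⟩ := hcon x (hvu ▸ hxv)
          exact Finset.mem_biUnion.2 ⟨w, Finset.mem_erase.2 ⟨hwu, hw⟩, hxw⟩
        · exact Finset.mem_biUnion.2 ⟨v, Finset.mem_erase.2 ⟨hvu, hv⟩, hxv⟩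
    have := hmin (S.erase u) (Finset.mem_filter.2 ⟨Finset.mem_powerset.2
      ((Finset.erase_subset _ _).trans hS.1), hun⟩)
    rw [Finset.card_erase_of_mem hu] at this
    have : 0 < S.card := Finset.card_pos.2 ⟨u, hu⟩
    omega
  have hcl : S.card ≤ c := by
    apply hclique
    intro x hx y hy hxy
    by_contra hadj
    obtain ⟨a, ha, ha'⟩ := hpriv x hx
    obtain ⟨b, hb, hb'⟩ := hpriv y hy
    exact hxy (hnest x (hS.1 hx) y (hS.1 hy) hadj ⟨a, ha, ha' y hy (Ne.symm hxy)⟩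
      ⟨b, hb, hb' x hx hxy⟩)
  rw [← hS.2]
  calc (S.biUnion f).card ≤ S.card * t :=
        Finset.card_biUnion_le_card_mul _ _ _ (fun u hu => ht u (hS.1 hu))
    _ ≤ c * t := Nat.mul_le_mul_right _ hcl

end Pool.Agent.H265R2.P5
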