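import Pool.Agent.H265R2.P5a

set_option autoImplicit false

namespace Pool.Agent.H265R2.P5

open Finset Classical
open Pool.Agent.H265R2.CritP4

universe u

variable {V : Type u}

section node

variable [Fintype V] (G : SimpleGraph V) (hP : NoP5 G) (I : Finset V)
  (hI : ∀ x ∈ I, ∀ y ∈ I, ¬ G.Adj x y)
  (hmax : ∀ u, u ∉ I → (nb G I u).Nonempty)

include hP hI hmax

/-- There is no large set `X` inside the maximal independent set `I` for which every outside
vertex sees almost nothing or almost everything. -/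
theorem node (K : ℕ) (hnot : ¬ G.Colorable K) (hcrit : ∀ v, (G.induce {v}ᶜ).Colorable K)
    (c : ℕ) (hclique : ∀ S : Finset V, (∀ x ∈ S, ∀ y ∈ S, x ≠ y → G.Adj x y) → S.card ≤ c)
    (t : ℕ) (X : Finset V) (hXI : X ⊆ I)
    (hX : ∀ u, u ∉ I → (nb G X u).card < t ∨ (X \ nb G X u).card < t)
    (hcard : (1 + c * t + c * t) * (t * K + 1) < X.card) : False := by
  let Sm : V → Prop := fun u => u ∉ I ∧ (nb G X u).card < t
  let A : V → Prop := fun y => y ∈ I ∨ Sm y
  have hAI : ∀ x ∈ I, A x := fun x hx => Or.inl hx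
  let block : V → Finset V := fun x => Finset.univ.filter (fun y => Reach G A x y)
  have memB : ∀ x y, y ∈ block x ↔ Reach G A x y := by
    intro x y; simp [block]
  have hself : ∀ x, x ∈ block x := fun x => (memB x x).2 Relation.ReflTransGen.refl
  have hBA : ∀ x ∈ I, ∀ y ∈ block x, A y := fun x hx y hy => Reach.mem (hAI x hx) ((memB x y).1 hy)
  have heq : ∀ x y, Reach G A x y → block x = block y := by
    intro x y h
    ext z
    rw [memB, memB]
    exact ⟨fun h' => (Reach.symm' h).trans h', fun h' => h.trans h'⟩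
  let J : Finset (Finset V) := X.image block
  have memJ : ∀ H ∈ J, ∃ x ∈ X, block x = H := fun H hH => Finset.mem_image.1 hH
  have hclass : ∀ H ∈ J, ∀ z ∈ H, block z = H := by
    intro H hH z hz
    obtain ⟨x, _, rfl⟩ := memJ H hH
    exact (heq x z ((memB x z).1 hz)).symm
  have hHA : ∀ H ∈ J, ∀ y ∈ H, A y := by
    intro H hH y hy
    obtain ⟨x, hx, rfl⟩ := memJ H hH
    exact hBA x (hXI hx) y hy
  have hclosed : ∀ H ∈ J, ∀ y ∈ H, ∀ z, A z → G.Adj y z → z ∈ H := by
    intro H hH y hy z hz hyz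
    have hAy := hHA H hH y hy
    obtain ⟨x, hx, rfl⟩ := memJ H hH
    rw [memB] at hy ⊢
    exact hy.tail ⟨hAy, hz, hyz⟩
  have hanti : ∀ H ∈ J, ∀ H' ∈ J, H ≠ H' → ∀ x ∈ H, ∀ y ∈ H', x ≠ y ∧ ¬ G.Adj x y := by
    intro H hH H' hH' hne x hx y hy
    constructor
    · intro h
      exact hne ((hclass H hH x hx).symm.trans (h ▸ hclass H' hH' y hy))
    · intro h
      have hyH : y ∈ H := hclosed H hH x hx y (hHA H' hH' y hy) h
      exact hne ((hclass H hH y hyH).symm.trans (hclass H' hH' y hy))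
  -- each block meets `X` in few vertices
  have hHX : ∀ H ∈ J, (H ∩ X).card ≤ 1 + c * t + c * t := by
    intro H hH
    obtain ⟨x, hxX, rfl⟩ := memJ H hH
    have hxI := hXI hxX
    let F1 : Finset V := Finset.univ.filter (fun z => Sm z ∧ G.Adj x z)
    let X1 : Finset V := F1.biUnion (fun z => nb G X z)
    let F2 : Finset V := Finset.univ.filter (fun w => Sm w ∧ ¬ G.Adj x w ∧ ∃ z ∈ F1, G.Adj z w)
    let f2 : V → Finset V := fun w => (nb G X w).filter (fun y => y ∉ X1)
    let X2 : Finset V := F2.biUnion f2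
    have memF1 : ∀ z, z ∈ F1 ↔ Sm z ∧ G.Adj x z := by intro z; simp [F1]
    have memF2 : ∀ w, w ∈ F2 ↔ Sm w ∧ ¬ G.Adj x w ∧ ∃ z ∈ F1, G.Adj z w := by
      intro w; simp only [F2, Finset.mem_filter, Finset.mem_univ, true_and]
    have hX1 : X1.card ≤ c * t := by
      apply clique_cover G c hclique F1 (fun z => nb G X z) t
      · intro z hz; exact ((memF1 z).1 hz).1.2.le
      · rintro u hu v hv huv ⟨a, ha, ha'⟩ ⟨b, hb, hb'⟩
        exfalso
        rw [memF1] at hu hv
        rw [mem_nb] at ha hb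
        have ha2 : ¬ G.Adj v a := fun h => ha' (mem_nb.2 ⟨ha.1, h⟩)
        have hb2 : ¬ G.Adj u b := fun h => hb' (mem_nb.2 ⟨hb.1, h⟩)
        rcases cross5 G hP I hI u v huv with h | h | h
        · exact ha2 (mem_nb.1 (h (mem_nb.2 ⟨hXI ha.1, ha.2⟩))).2
        · exact hb2 (mem_nb.1 (h (mem_nb.2 ⟨hXI hb.1, hb.2⟩))).2
        · exact Finset.disjoint_left.1 h (mem_nb.2 ⟨hxI, hu.2.symm⟩) (mem_nb.2 ⟨hxI, hv.2.symm⟩)
    have hX2 : X2.card ≤ c * t := by
      apply clique_cover G c hclique F2 f2 t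
      · intro z hz
        exact (Finset.card_le_card (Finset.filter_subset _ _)).trans ((memF2 z).1 hz).1.2.le
      · rintro u hu v hv huv ⟨a, ha, ha'⟩ ⟨b, hb, hb'⟩
        exfalso
        obtain ⟨hu1, hu2, z, hz, hzu⟩ := (memF2 u).1 hu
        obtain ⟨hv1, hv2, z', hz', hzv⟩ := (memF2 v).1 hv
        obtain ⟨ha1, haX1⟩ := Finset.mem_filter.1 ha
        obtain ⟨hb1, hbX1⟩ := Finset.mem_filter.1 hb
        rw [mem_nb] at ha1 hb1
        have hva : ¬ G.Adj v a := fun h =>
          ha' (Finset.mem_filter.2 ⟨mem_nb.2 ⟨ha1.1, h⟩, haX1⟩)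
        have hub : ¬ G.Adj u b := fun h =>
          hb' (Finset.mem_filter.2 ⟨mem_nb.2 ⟨hb1.1, h⟩, hbX1⟩)
        have hza : ∀ y ∈ F1, ¬ G.Adj y a := fun y hy h =>
          haX1 (Finset.mem_biUnion.2 ⟨y, hy, mem_nb.2 ⟨ha1.1, h⟩⟩)
        have hzb : ∀ y ∈ F1, ¬ G.Adj y b := fun y hy h =>
          hbX1 (Finset.mem_biUnion.2 ⟨y, hy, mem_nb.2 ⟨hb1.1, h⟩⟩)
        have hab := hI a (hXI ha1.1) b (hXI hb1.1)
        have hz1 := (memF1 z).1 hz
        have hz1' := (memF1 z').1 hz'
        by_cases h1 : G.Adj z v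
        · exact hP a u z v b ha1.2.symm hzu.symm h1 hb1.2 (fun h => hza z hz h.symm)
            (fun h => hva h.symm) hab huv hub (hzb z hz)
        by_cases h2 : G.Adj z' u
        · exact hP a u z' v b ha1.2.symm h2.symm hzv hb1.2 (fun h => hza z' hz' h.symm)
            (fun h => hva h.symm) hab huv hub (hzb z' hz')
        by_cases h3 : G.Adj z z'
        · exact hP a u z z' v ha1.2.symm hzu.symm h3 hzv (fun h => hza z hz h.symm)
            (fun h => hza z' hz' h.symm) (fun h => hva h.symm) (fun h => h2 h.symm) huv h1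
        · exact hP u z x z' v hzu.symm hz1.2.symm hz1'.2 hzv (fun h => hu2 h.symm)
            (fun h => h2 h.symm) huv h3 h1 hv2
    have hsub : block x ∩ X ⊆ ({x} ∪ X1) ∪ X2 := by
      intro y hy
      rw [Finset.mem_inter, memB] at hy
      obtain ⟨hy1, hyX⟩ := hy
      have hyI := hXI hyX
      rw [Finset.mem_union, Finset.mem_union, Finset.mem_singleton]
      rcases reach_three G hP A x y hy1 with h | h | h | h
      · exact Or.inl (Or.inl h)
      · exact absurd h.2 (hI x hxI y hyI)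
      · obtain ⟨-, z, hz, hxz, hzy⟩ := h
        have hzI : z ∉ I := fun h => hI x hxI z h hxz
        have hzS : Sm z := hz.resolve_left hzI
        exact Or.inl (Or.inr (Finset.mem_biUnion.2 ⟨z, (memF1 z).2 ⟨hzS, hxz⟩,
          mem_nb.2 ⟨hyX, hzy⟩⟩))
      · obtain ⟨-, w, ⟨hw, z, hz, hxz, hzw⟩, hxw, hwy⟩ := h
        by_cases hyX1 : y ∈ X1
        · exact Or.inl (Or.inr hyX1)
        · right
          have hzI : z ∉ I := fun h => hI x hxI z h hxz
          have hzS : Sm z := hz.resolve_left hzI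
          have hwI : w ∉ I := fun h => hI w h y hyI hwy
          have hwS : Sm w := hw.resolve_left hwI
          exact Finset.mem_biUnion.2 ⟨w, (memF2 w).2 ⟨hwS, hxw, z, (memF1 z).2 ⟨hzS, hxz⟩, hzw⟩,
            Finset.mem_filter.2 ⟨mem_nb.2 ⟨hyX, hwy⟩, hyX1⟩⟩
    calc (block x ∩ X).card ≤ (({x} ∪ X1) ∪ X2).card := Finset.card_le_card hsub
      _ ≤ ({x} ∪ X1).card + X2.card := Finset.card_union_le _ _
      _ ≤ (({x} : Finset V).card + X1.card) + X2.card :=
          Nat.add_le_add_right (Finset.card_union_le _ _) _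
      _ ≤ 1 + c * t + c * t := by rw [Finset.card_singleton]; omega
  have hJcard : X.card ≤ (1 + c * t + c * t) * J.card := by
    apply Finset.card_le_mul_card_image
    intro H hH
    refine le_trans (Finset.card_le_card ?_) (hHX H hH)
    intro x hx
    rw [Finset.mem_filter] at hx
    rw [Finset.mem_inter]
    exact ⟨hx.2 ▸ hself x, hx.1⟩
  have hM : ∀ q : V, (∀ H ∈ J, q ∉ H) → (∃ H ∈ J, ∃ y ∈ H, G.Adj q y) →
      (J.filter (fun H => ∃ y ∈ H, ¬ G.Adj q y)).card ≤ t := by
    rintro q hq ⟨H, hH, y, hy, hqy⟩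
    have hqA : ¬ A q := fun h => hq H hH (hclosed H hH y hy q h hqy.symm)
    have hqI : q ∉ I := fun h => hqA (Or.inl h)
    have hlarge : (X \ nb G X q).card < t := by
      rcases hX q hqI with h | h
      · exact absurd (Or.inr ⟨hqI, h⟩) hqA
      · exact h
    let F1 := J.filter (fun H => ∃ x ∈ H ∩ X, ¬ G.Adj q x)
    let F2 := J.filter (fun H => (∀ x ∈ H ∩ X, G.Adj q x) ∧ ∃ y ∈ H, ¬ G.Adj q y)
    have hF12 : J.filter (fun H => ∃ y ∈ H, ¬ G.Adj q y) ⊆ F1 ∪ F2 := by
      intro H hH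
      rw [Finset.mem_filter] at hH
      rw [Finset.mem_union]
      by_cases h : ∃ x ∈ H ∩ X, ¬ G.Adj q x
      · exact Or.inl (Finset.mem_filter.2 ⟨hH.1, h⟩)
      · push Not at h
        exact Or.inr (Finset.mem_filter.2 ⟨hH.1, h, hH.2⟩)
    have hF1 : F1.card + 1 ≤ t := by
      have hsub : F1 ⊆ (X \ nb G X q).image block := by
        intro H hH
        obtain ⟨hHJ, x, hx, hqx⟩ := Finset.mem_filter.1 hH
        rw [Finset.mem_inter] at hx
        refine Finset.mem_image.2 ⟨x, ?_, hclass H hHJ x hx.1⟩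
        rw [Finset.mem_sdiff]
        exact ⟨hx.2, fun h => hqx (mem_nb.1 h).2⟩
      have := (Finset.card_le_card hsub).trans Finset.card_image_le
      omega
    have hF2 : F2.card ≤ 1 := by
      rw [Finset.card_le_one]
      intro H hH H' hH'
      by_contra hne
      obtain ⟨hHJ, h1, y1, hy1, hqy1⟩ := Finset.mem_filter.1 hH
      obtain ⟨hHJ', h2, y2, hy2, hqy2⟩ := Finset.mem_filter.1 hH'
      obtain ⟨x1, hx1, hxH⟩ := memJ H hHJ
      obtain ⟨x2, hx2, hxH'⟩ := memJ H' hHJ'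
      have hx1H : x1 ∈ H := hxH ▸ hself x1
      have hx2H : x2 ∈ H' := hxH' ▸ hself x2
      refine not_mixed_twice G hP (A := A) (B := A) (q := q) (x := x1) (y := y1) (x' := x2)
        (y' := y2) ?_ (h1 x1 (Finset.mem_inter.2 ⟨hx1H, hx1⟩)) hqy1 ?_
        (h2 x2 (Finset.mem_inter.2 ⟨hx2H, hx2⟩)) hqy2 ?_
      · rw [← memB, hxH]; exact hy1
      · rw [← memB, hxH']; exact hy2
      · intro a b ha hb
        refine (hanti H hHJ H' hHJ' hne a ?_ b ?_).2
        · rw [← hxH, memB]; exact ha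
        · rw [← hxH', memB]; exact hb
    calc (J.filter (fun H => ∃ y ∈ H, ¬ G.Adj q y)).card ≤ (F1 ∪ F2).card :=
          Finset.card_le_card hF12
      _ ≤ F1.card + F2.card := Finset.card_union_le _ _
      _ ≤ t := by omega
  have hne : ∀ H ∈ J, (H : Finset V).Nonempty := by
    intro H hH
    obtain ⟨x, _, rfl⟩ := memJ H hH
    exact ⟨x, hself x⟩
  have hfin := color_lemma G K hnot hcrit J (fun H => H) hne hanti t hM
  have h7 : (1 + c * t + c * t) * J.card ≤ (1 + c * t + c * t) * (t * K + 1) :=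
    Nat.mul_le_mul_left _ hfin
  omega

end node

end Pool.Agent.H265R2.P5
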