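import Pool.Agent.H265R2.P5b

set_option autoImplicit false

namespace Pool.Agent.H265R2.P5

open Finset Classical
open Pool.Agent.H265R2.CritP4

universe u

variable {V : Type u}

/-- Thresholds. -/
def thr (g c K : ℕ) : ℕ → ℕ
  | 0 => g
  | n + 1 => (1 + c * thr g c K n + c * thr g c K n) * (thr g c K n * K + 1) + thr g c K n + 1

theorem thr_ge (g c K : ℕ) : ∀ n, g ≤ thr g c K n
  | 0 => le_rfl
  | n + 1 => by
    have ih := thr_ge g c K n
    have h1 : thr g c K (n + 1) =
      (1 + c * thr g c K n + c * thr g c K n) * (thr g c K n * K + 1) + thr g c K n + 1 := rfl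
    have h3 : 0 ≤ (1 + c * thr g c K n + c * thr g c K n) * (thr g c K n * K + 1) :=
      Nat.zero_le _
    omega

theorem process (G : SimpleGraph V) (I : Finset V) (g c K : ℕ) (hg : 1 ≤ g)
    (hnode : ∀ (t : ℕ) (X : Finset V), X ⊆ I → (1 + c * t + c * t) * (t * K + 1) < X.card →
      ∃ u, u ∉ I ∧ t ≤ (nb G X u).card ∧ t ≤ (X \ nb G X u).card) :
    ∀ (n : ℕ) (X : Finset V), X ⊆ I → thr g c K n ≤ X.card → ∃ u : ℕ → V,
      (∀ i, i < n → u i ∉ I ∧ g ≤ (nb G X (u i)).card ∧ g ≤ (X \ nb G X (u i)).card) ∧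
      (∀ i j, i < j → j < n → g ≤ (nb G X (u i) ∩ nb G X (u j)).card ∧
        g ≤ (nb G X (u i) \ nb G X (u j)).card) := by
  intro n
  induction n with
  | zero =>
    intro X _ hX
    have hne : X.Nonempty := by
      rw [← Finset.card_pos]
      have h1 : thr g c K 0 = g := rfl
      omega
    obtain ⟨x, _⟩ := hne
    exact ⟨fun _ => x, fun i hi => absurd hi (Nat.not_lt_zero _),
      fun i j _ hj => absurd hj (Nat.not_lt_zero _)⟩
  | succ n ih =>
    intro X hXI hX
    have h1 : thr g c K (n + 1) =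
      (1 + c * thr g c K n + c * thr g c K n) * (thr g c K n * K + 1) + thr g c K n + 1 := rfl
    obtain ⟨u0, hu0, hu1, hu2⟩ := hnode (thr g c K n) X hXI (by omega)
    have hg' := thr_ge g c K n
    obtain ⟨u, ha, hb⟩ := ih (nb G X u0) ((nb_subset G X u0).trans hXI) hu1
    have hX1 : ∀ v, nb G (nb G X u0) v ⊆ nb G X v := by
      intro v x hx
      rw [mem_nb, mem_nb] at hx
      exact mem_nb.2 ⟨hx.1.1, hx.2⟩
    have hX2 : ∀ v, nb G (nb G X u0) v ⊆ nb G X u0 ∩ nb G X v := by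
      intro v x hx
      exact Finset.mem_inter.2 ⟨nb_subset _ _ _ hx, hX1 v hx⟩
    have hX3 : ∀ v, nb G X u0 \ nb G (nb G X u0) v ⊆ nb G X u0 \ nb G X v := by
      intro v x hx
      rw [Finset.mem_sdiff] at hx ⊢
      exact ⟨hx.1, fun h => hx.2 (mem_nb.2 ⟨hx.1, (mem_nb.1 h).2⟩)⟩
    refine ⟨fun i => match i with
      | 0 => u0
      | k + 1 => u k, ?_, ?_⟩
    · intro i hi
      rcases i with _ | i
      · exact ⟨hu0, hg'.trans hu1, hg'.trans hu2⟩
      · obtain ⟨h3, h4, h5⟩ := ha i (by omega)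
        refine ⟨h3, h4.trans (Finset.card_le_card (hX1 _)), h5.trans (Finset.card_le_card ?_)⟩
        intro x hx
        have := hX3 _ hx
        rw [Finset.mem_sdiff] at this ⊢
        exact ⟨(nb_subset _ _ _) this.1, this.2⟩
    · intro i j hij hj
      rcases j with _ | j
      · exact absurd hij (Nat.not_lt_zero _)
      rcases i with _ | i
      · obtain ⟨h3, h4, h5⟩ := ha j (by omega)
        exact ⟨h4.trans (Finset.card_le_card (hX2 _)), h5.trans (Finset.card_le_card (hX3 _))⟩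
      · obtain ⟨h3, h4⟩ := hb i j (by omega) (by omega)
        refine ⟨h3.trans (Finset.card_le_card ?_), h4.trans (Finset.card_le_card ?_)⟩
        · intro x hx
          rw [Finset.mem_inter] at hx ⊢
          exact ⟨hX1 _ hx.1, hX1 _ hx.2⟩
        · intro x hx
          rw [Finset.mem_sdiff] at hx ⊢
          refine ⟨hX1 _ hx.1, fun h => hx.2 ?_⟩
          exact mem_nb.2 ⟨nb_subset _ _ _ hx.1, (mem_nb.1 h).2⟩

/-- A chain of `m` pairwise nonadjacent outside vertices with strictly decreasing neighbourhoods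
in `I`. -/
structure Chain (G : SimpleGraph V) (I : Finset V) (g : ℕ) (u : ℕ → V) (m : ℕ) : Prop where
  out : ∀ i, i < m → u i ∉ I
  nadj : ∀ i j, i < m → j < m → ¬ G.Adj (u i) (u j)
  sub : ∀ i j, i < j → j < m → nb G I (u j) ⊆ nb G I (u i)
  gap : ∀ i j, i < j → j < m → g ≤ (nb G I (u i) \ nb G I (u j)).card
  big : ∀ i, i < m → g ≤ (nb G I (u i)).card

theorem exists_chain [Fintype V] (G : SimpleGraph V) (hP : NoP5 G) (I : Finset V)
    (hI : ∀ x ∈ I, ∀ y ∈ I, ¬ G.Adj x y)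
    (hmax : ∀ u, u ∉ I → (nb G I u).Nonempty)
    (K : ℕ) (hnot : ¬ G.Colorable K) (hcrit : ∀ v, (G.induce {v}ᶜ).Colorable K)
    (c : ℕ) (hclique : ∀ S : Finset V, (∀ x ∈ S, ∀ y ∈ S, x ≠ y → G.Adj x y) → S.card ≤ c)
    (g m : ℕ) (hg : 1 ≤ g) (hcard : thr g c K (2 ^ ((c + 1) + m)) ≤ I.card) :
    ∃ u : ℕ → V, Chain G I g u m := by
  have hnode : ∀ (t : ℕ) (X : Finset V), X ⊆ I → (1 + c * t + c * t) * (t * K + 1) < X.card →
      ∃ u, u ∉ I ∧ t ≤ (nb G X u).card ∧ t ≤ (X \ nb G X u).card := by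
    intro t X hXI hX
    by_contra hcon
    push Not at hcon
    refine node G hP I hI hmax K hnot hcrit c hclique t X hXI ?_ hX
    intro u hu
    by_cases h : (nb G X u).card < t
    · exact Or.inl h
    · exact Or.inr (hcon u hu (not_lt.1 h))
  obtain ⟨u, ha, hb⟩ := process G I g c K hg hnode _ I subset_rfl hcard
  rcases ramsey (G.comap u) _ (c + 1) m le_rfl (Finset.range (2 ^ ((c + 1) + m)))
    (by simp) with ⟨T, hT, hc, hadj⟩ | ⟨T, hT, hc, hadj⟩
  · exfalso
    have hinj : Set.InjOn u (T : Set ℕ) := by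
      intro x hx y hy hxy
      by_contra hne
      have h1 : G.Adj (u x) (u y) := hadj x hx y hy hne
      exact h1.ne hxy
    have := hclique (T.image u) (by
      intro x hx y hy hxy
      obtain ⟨i, hi, rfl⟩ := Finset.mem_image.1 hx
      obtain ⟨j, hj, rfl⟩ := Finset.mem_image.1 hy
      exact hadj i hi j hj (fun h => hxy (by rw [h])))
    rw [Finset.card_image_of_injOn hinj] at this
    omega
  · let e := T.orderEmbOfFin hc
    have heT : ∀ i, e i ∈ T := fun i => T.orderEmbOfFin_mem hc i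
    have heR : ∀ i, e i < 2 ^ ((c + 1) + m) := fun i => Finset.mem_range.1 (hT (heT i))
    let v : ℕ → V := fun i => if h : i < m then u (e ⟨i, h⟩) else u 0
    have hv : ∀ i (h : i < m), v i = u (e ⟨i, h⟩) := fun i h => dif_pos h
    have hnadj : ∀ i j, i < m → j < m → ¬ G.Adj (v i) (v j) := by
      intro i j hi hj
      rw [hv i hi, hv j hj]
      exact hadj _ (heT _) _ (heT _)
    have hpair : ∀ i j, i < j → j < m → g ≤ (nb G I (v i) ∩ nb G I (v j)).card ∧
        g ≤ (nb G I (v i) \ nb G I (v j)).card := by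
      intro i j hij hj
      rw [hv i (hij.trans hj), hv j hj]
      exact hb _ _ (e.strictMono (by exact hij)) (heR _)
    refine ⟨v, ?_, hnadj, ?_, ?_, ?_⟩
    · intro i hi
      rw [hv i hi]
      exact (ha _ (heR _)).1
    · intro i j hij hj
      obtain ⟨h1, h2⟩ := hpair i j hij hj
      rcases cross5 G hP I hI (v i) (v j) (hnadj i j (hij.trans hj) hj) with h | h | h
      · exfalso
        rw [Finset.sdiff_eq_empty_iff_subset.2 h, Finset.card_empty] at h2
        omega
      · exact h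
      · exfalso
        rw [Finset.disjoint_iff_inter_eq_empty.1 h, Finset.card_empty] at h1
        omega
    · intro i j hij hj
      exact (hpair i j hij hj).2
    · intro i hi
      rw [hv i hi]
      exact (ha _ (heR _)).2.1

/-- Core of the recolouring argument. -/
theorem recolor (G : SimpleGraph V) (K : ℕ) (hnot : ¬ G.Colorable K)
    (hcrit : ∀ v, (G.induce {v}ᶜ).Colorable K)
    {ι : Type*} (j0 : ι) (J : Finset ι) (W : ι → Finset V)
    (hne0 : (W j0).Nonempty) (hne : ∀ i ∈ J, (W i).Nonempty)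
    (hanti0 : ∀ i ∈ J, ∀ x ∈ W i, ∀ y ∈ W j0, x ≠ y ∧ ¬ G.Adj x y)
    (hmin : ∀ i ∈ J, (G.induce (W j0 : Set V)).chromaticNumber ≤
      (G.induce (W i : Set V)).chromaticNumber)
    (b : ℕ)
    (hM : ∀ q : V, q ∉ W j0 → (∃ y ∈ W j0, G.Adj q y) →
      (J.filter (fun i => ∃ y ∈ W i, ¬ G.Adj q y)).card ≤ b) :
    J.card ≤ b * K := by
  by_contra hcon
  push Not at hcon
  obtain ⟨v, hv⟩ := hne0
  obtain ⟨φ⟩ := hcrit v
  have hJ'' : J.Nonempty := by
    rw [← Finset.card_pos]; omega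
  have hxv : ∀ i ∈ J, ∀ x ∈ W i, x ≠ v := fun i hi x hx =>
    (hanti0 i hi x hx v hv).1
  -- a total version of the colouring
  obtain ⟨i1, hi1⟩ := hJ''
  obtain ⟨w, hw⟩ := hne i1 hi1
  have hwv : w ≠ v := hxv i1 hi1 w hw
  let c0 : Fin K := φ ⟨w, hwv⟩
  let ψ : V → Fin K := fun x => if h : x ≠ v then φ ⟨x, h⟩ else c0
  have hψ : ∀ x y, x ≠ v → y ≠ v → G.Adj x y → ψ x ≠ ψ y := by
    intro x y hx hy hxy
    have h1 : ψ x = φ ⟨x, hx⟩ := dif_pos hx
    have h2 : ψ y = φ ⟨y, hy⟩ := dif_pos hy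
    rw [h1, h2]
    apply φ.valid
    exact hxy
  -- bad indices for a colour
  let bad : Fin K → Finset ι := fun c => J.filter (fun i =>
    (∃ y ∈ W i, ψ y = c) ∧ ∃ q : V, q ∉ W j0 ∧ (∃ y ∈ W j0, G.Adj q y) ∧ ψ q = c)
  have hbad : ∀ c, (bad c).card ≤ b := by
    intro c
    by_cases hc : ∃ q : V, q ∉ W j0 ∧ (∃ y ∈ W j0, G.Adj q y) ∧ ψ q = c
    · obtain ⟨q, hq1, hq2, hq3⟩ := hc
      refine le_trans (Finset.card_le_card ?_) (hM q hq1 hq2)
      intro i hi
      obtain ⟨hiJ, ⟨y, hy, hyc⟩, -⟩ := Finset.mem_filter.1 hi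
      refine Finset.mem_filter.2 ⟨hiJ, y, hy, fun hadj => ?_⟩
      have hqv : q ≠ v := fun h => hq1 (h ▸ hv)
      exact hψ q y hqv (hxv i hiJ y hy) hadj (hq3.trans hyc.symm)
    · have : bad c = ∅ := by
        apply Finset.filter_eq_empty_iff.2
        intro i _ h
        exact hc h.2
      rw [this]; simp
  have hunion : (Finset.univ.biUnion bad).card ≤ b * K := by
    calc (Finset.univ.biUnion bad).card ≤ ∑ c : Fin K, (bad c).card := Finset.card_biUnion_le
      _ ≤ ∑ _c : Fin K, b := Finset.sum_le_sum (fun c _ => hbad c)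
      _ = b * K := by simp [mul_comm]
  obtain ⟨i, hiJ, hgood⟩ : ∃ i ∈ J, i ∉ Finset.univ.biUnion bad := by
    by_contra h
    push Not at h
    have : J.card ≤ (Finset.univ.biUnion bad).card := Finset.card_le_card h
    omega
  have hgood' : ∀ y ∈ W i, ∀ q : V, q ∉ W j0 → (∃ z ∈ W j0, G.Adj q z) → ψ q ≠ ψ y := by
    intro y hy q hq1 hq2 heq
    apply hgood
    rw [Finset.mem_biUnion]
    exact ⟨ψ y, Finset.mem_univ _, Finset.mem_filter.2 ⟨hiJ, ⟨y, hy, rfl⟩, q, hq1, hq2, heq⟩⟩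
  let C : Finset (Fin K) := (W i).image ψ
  have hcolC : (G.induce (W i : Set V)).Colorable (Fintype.card C) := by
    refine (SimpleGraph.Coloring.mk (fun x : (W i : Set V) =>
      (⟨ψ x.1, Finset.mem_image_of_mem _ x.2⟩ : C)) ?_).colorable
    intro x y hxy h
    have h2 : ψ x.1 = ψ y.1 := congrArg Subtype.val h
    exact hψ x.1 y.1 (hxv i hiJ _ x.2) (hxv i hiJ _ y.2) hxy h2
  have hcol0 : (G.induce (W j0 : Set V)).Colorable (Fintype.card C) := by
    rw [← SimpleGraph.chromaticNumber_le_iff_colorable] at hcolC ⊢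
    exact le_trans (hmin i hiJ) hcolC
  let ρ : (G.induce (W j0 : Set V)).Coloring C := hcol0.toColoring le_rfl
  apply hnot
  refine ⟨SimpleGraph.Coloring.mk (fun x => if h : x ∈ W j0 then (ρ ⟨x, h⟩ : Fin K) else ψ x) ?_⟩
  have hρ : ∀ x, ∀ h : x ∈ W j0, ∃ y ∈ W i, ψ y = (ρ ⟨x, h⟩ : Fin K) := by
    intro x h
    exact Finset.mem_image.1 (ρ ⟨x, h⟩).2
  intro x y hxy
  by_cases hx : x ∈ W j0 <;> by_cases hy : y ∈ W j0
  · simp only [hx, hy, dif_pos]
    intro h
    have : (G.induce (W j0 : Set V)).Adj ⟨x, hx⟩ ⟨y, hy⟩ := hxy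
    exact ρ.valid this (Subtype.ext h)
  · simp only [hx, hy, dif_pos, dif_neg, not_false_eq_true]
    obtain ⟨z, hz, hz2⟩ := hρ x hx
    rw [← hz2]
    exact (hgood' z hz y hy ⟨x, hx, hxy.symm⟩).symm
  · simp only [hx, hy, dif_pos, dif_neg, not_false_eq_true]
    obtain ⟨z, hz, hz2⟩ := hρ y hy
    rw [← hz2]
    exact hgood' z hz x hx ⟨y, hy, hxy⟩
  · simp only [hx, hy, dif_neg, not_false_eq_true]
    exact hψ x y (fun h => hx (h ▸ hv)) (fun h => hy (h ▸ hv)) hxy

/-- Ordered colour lemma: a `(K+1)`-vertex-critical graph has no long sequence of nonempty,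
pairwise anticomplete vertex sets such that every outside neighbour of a set is complete to almost
all of the earlier sets. -/
theorem ordered_color (G : SimpleGraph V) (K : ℕ) (hnot : ¬ G.Colorable K)
    (hcrit : ∀ v, (G.induce {v}ᶜ).Colorable K) (hcol : G.Colorable (K + 1))
    (m : ℕ) (W : ℕ → Finset V) (hne : ∀ i, i < m → (W i).Nonempty)
    (hanti : ∀ i j, i < j → j < m → ∀ x ∈ W i, ∀ y ∈ W j, x ≠ y ∧ ¬ G.Adj x y)
    (b : ℕ)
    (hM : ∀ q : V, ∀ j, j < m → q ∉ W j → (∃ y ∈ W j, G.Adj q y) →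
      ((Finset.range j).filter (fun i => ∃ y ∈ W i, ¬ G.Adj q y)).card ≤ b) :
    m ≤ (b * K + 1) * (K + 2) := by
  by_contra hcon
  push Not at hcon
  have hchi : ∀ i, ∃ n : ℕ, n < K + 2 ∧
      (G.induce (W i : Set V)).chromaticNumber = n := by
    intro i
    have h1 : (G.induce (W i : Set V)).Colorable (K + 1) :=
      hcol.of_hom (SimpleGraph.Embedding.induce _).toHom
    have h2 := (SimpleGraph.chromaticNumber_le_iff_colorable).2 h1
    have h3 : (G.induce (W i : Set V)).chromaticNumber ≠ ⊤ :=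
      ne_top_of_le_ne_top (by exact_mod_cast ENat.natCast_ne_top (K + 1)) h2
    obtain ⟨n, hn⟩ := ENat.ne_top_iff_exists.1 h3
    refine ⟨n, ?_, hn.symm⟩
    rw [← hn] at h2
    have : n ≤ K + 1 := by exact_mod_cast h2
    omega
  choose f hf1 hf2 using hchi
  obtain ⟨n, hn, hn2⟩ := Finset.exists_lt_card_fiber_of_mul_lt_card_of_maps_to
    (s := Finset.range m) (t := Finset.range (K + 2)) (f := f) (n := b * K + 1)
    (fun i _ => Finset.mem_range.2 (hf1 i))
    (by rw [Finset.card_range, Finset.card_range, mul_comm]; exact hcon)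
  set S := (Finset.range m).filter (fun x => f x = n) with hS
  have hSne : S.Nonempty := by
    rw [← Finset.card_pos]; omega
  let j0 := S.max' hSne
  have hj0 : j0 ∈ S := S.max'_mem hSne
  have hj0m : j0 < m := Finset.mem_range.1 (Finset.mem_filter.1 hj0).1
  have hlt : ∀ i ∈ S.erase j0, i < j0 := by
    intro i hi
    rw [Finset.mem_erase] at hi
    exact lt_of_le_of_ne (S.le_max' i hi.2) hi.1
  have hfin := recolor G K hnot hcrit j0 (S.erase j0) W
    (hne j0 hj0m)
    (fun i hi => hne i ((hlt i hi).trans hj0m))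
    (fun i hi => hanti i j0 (hlt i hi) hj0m)
    (by
      intro i hi
      have h1 : f i = n := (Finset.mem_filter.1 (Finset.mem_of_mem_erase hi)).2
      have h2 : f j0 = n := (Finset.mem_filter.1 hj0).2
      rw [hf2 i, hf2 j0, h1, h2])
    b
    (by
      intro q hq1 hq2
      refine le_trans (Finset.card_le_card ?_) (hM q j0 hj0m hq1 hq2)
      intro i hi
      rw [Finset.mem_filter] at hi ⊢
      exact ⟨Finset.mem_range.2 (hlt i hi.1), hi.2⟩)
  rw [Finset.card_erase_of_mem hj0] at hfin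
  omega

end Pool.Agent.H265R2.P5
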