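import Pool.Agent.H265R2.P5c

set_option autoImplicit false

namespace Pool.Agent.H265R2.P5

open Finset Classical
open Pool.Agent.H265R2.CritP4

universe u

variable {V : Type u}

theorem sdiff_tri (A B C : Finset V) : (A \ C).card ≤ (A \ B).card + (B \ C).card := by
  refine le_trans (Finset.card_le_card ?_) (Finset.card_union_le _ _)
  intro x hx
  rw [Finset.mem_sdiff] at hx
  rw [Finset.mem_union, Finset.mem_sdiff, Finset.mem_sdiff]
  by_cases h : x ∈ B
  · exact Or.inr ⟨h, hx.2⟩
  · exact Or.inl ⟨hx.1, h⟩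

theorem exists_common (A C D : Finset V) (h : (A \ C).card + (A \ D).card < A.card) :
    ∃ x ∈ A, x ∈ C ∧ x ∈ D := by
  by_contra hcon
  push Not at hcon
  have h1 : A ⊆ (A \ C) ∪ (A \ D) := by
    intro x hx
    rw [Finset.mem_union, Finset.mem_sdiff, Finset.mem_sdiff]
    by_cases hc : x ∈ C
    · exact Or.inr ⟨hx, hcon x hx hc⟩
    · exact Or.inl ⟨hx, hc⟩
  have h2 := (Finset.card_le_card h1).trans (Finset.card_union_le _ _)
  omega

/-- No induced cricket (`K_{1,4}` plus an edge), in elementary terms. -/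
def NoCricket (G : SimpleGraph V) : Prop :=
  ∀ q q' c x x' : V, G.Adj q q' → G.Adj q c → G.Adj q' c → G.Adj q x → G.Adj q x' → x ≠ x' →
    ¬ G.Adj x x' → ¬ G.Adj x q' → ¬ G.Adj x c → ¬ G.Adj x' q' → ¬ G.Adj x' c → False

/-- No induced bull, in elementary terms. -/
def NoBull (G : SimpleGraph V) : Prop :=
  ∀ a b c x y : V, G.Adj a b → G.Adj a c → G.Adj b c → G.Adj a x → G.Adj b y →
    ¬ G.Adj x b → ¬ G.Adj x c → ¬ G.Adj x y → ¬ G.Adj y a → ¬ G.Adj y c → False

/-- No induced chair, in elementary terms. -/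
def NoChair (G : SimpleGraph V) : Prop :=
  ∀ o b b' a y : V, G.Adj o b → G.Adj o b' → G.Adj o a → G.Adj a y → b ≠ b' →
    ¬ G.Adj b b' → ¬ G.Adj b a → ¬ G.Adj b' a → ¬ G.Adj b y → ¬ G.Adj b' y → ¬ G.Adj o y → False

/-- No induced `C₄ + P₁`, in elementary terms. -/
def NoSquare (G : SimpleGraph V) : Prop :=
  ∀ a b c d x : V, G.Adj a b → G.Adj b c → G.Adj c d → G.Adj d a → a ≠ c → b ≠ d →
    ¬ G.Adj a c → ¬ G.Adj b d → x ≠ a → x ≠ b → x ≠ c → x ≠ d →
    ¬ G.Adj x a → ¬ G.Adj x b → ¬ G.Adj x c → ¬ G.Adj x d → False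

theorem cricket_adj (G : SimpleGraph V) (hC : NoCricket G) (I : Finset V)
    (hI : ∀ x ∈ I, ∀ y ∈ I, ¬ G.Adj x y) (q q' : V) (hqq : G.Adj q q')
    (hint : ∃ c ∈ nb G I q, c ∈ nb G I q') : (nb G I q \ nb G I q').card ≤ 1 := by
  rw [Finset.card_le_one]
  intro x hx y hy
  by_contra hne
  obtain ⟨c, hc, hc'⟩ := hint
  rw [Finset.mem_sdiff] at hx hy
  rw [mem_nb] at hc hc'
  have hx1 := mem_nb.1 hx.1
  have hy1 := mem_nb.1 hy.1
  exact hC q q' c x y hqq hc.2 hc'.2 hx1.2 hy1.2 hne (hI x hx1.1 y hy1.1)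
    (fun h => hx.2 (mem_nb.2 ⟨hx1.1, h.symm⟩)) (hI x hx1.1 c hc.1)
    (fun h => hy.2 (mem_nb.2 ⟨hy1.1, h.symm⟩)) (hI y hy1.1 c hc.1)

section cricket

variable [Fintype V] (G : SimpleGraph V) (hP : NoP5 G) (hC : NoCricket G) (I : Finset V)
  (hI : ∀ x ∈ I, ∀ y ∈ I, ¬ G.Adj x y)

include hP hC hI

theorem cricket_bound (K : ℕ) (hnot : ¬ G.Colorable K) (hcol : G.Colorable (K + 1))
    (hcrit : ∀ v, (G.induce {v}ᶜ).Colorable K) (m : ℕ) (u : ℕ → V)
    (hu : Chain G I 20 u (2 * m)) : m ≤ (1 * K + 1) * (K + 2) := by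
  let C : V → Finset V := fun v => nb G I v
  let A : ℕ → Finset V := fun t => nb G I (u (2 * t))
  let Z : ℕ → V → Prop := fun j r => r ∉ I ∧ (A j \ C r).card ≤ 4 ∧ (C r \ A j).card ≤ 4 ∧
    ∀ i, i < m → i ≠ j → ¬ G.Adj r (u (2 * i))
  let W : ℕ → Finset V := fun j => Finset.univ.filter (fun y => Reach G (Z j) (u (2 * j)) y)
  have memW : ∀ j y, y ∈ W j ↔ Reach G (Z j) (u (2 * j)) y := by intro j y; simp [W]
  have hadjC : ∀ q q', G.Adj q q' → (∃ c ∈ C q, c ∈ C q') →
      (C q \ C q').card ≤ 1 ∧ (C q' \ C q).card ≤ 1 := by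
    intro q q' h ⟨c, h1, h2⟩
    exact ⟨cricket_adj G hC I hI q q' h ⟨c, h1, h2⟩,
      cricket_adj G hC I hI q' q h.symm ⟨c, h2, h1⟩⟩
  have hZu : ∀ j, j < m → Z j (u (2 * j)) := by
    intro j hj
    refine ⟨hu.out _ (by omega), ?_, ?_, fun i hi _ => hu.nadj _ _ (by omega) (by omega)⟩
    · show (nb G I (u (2 * j)) \ nb G I (u (2 * j))).card ≤ 4
      rw [Finset.sdiff_self]; simp
    · show (nb G I (u (2 * j)) \ nb G I (u (2 * j))).card ≤ 4
      rw [Finset.sdiff_self]; simp
  have hbig : ∀ j, j < m → 20 ≤ (A j).card := fun j hj => hu.big _ (by omega)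
  have hstep : ∀ j, j < m → ∀ z z', Z j z → Z j z' → G.Adj z z' →
      (C z \ C z').card ≤ 1 ∧ (C z' \ C z).card ≤ 1 := by
    intro j hj z z' hz hz' hzz
    apply hadjC z z' hzz
    obtain ⟨c, -, h1, h2⟩ := exists_common (A j) (C z) (C z') (by
      have := hbig j hj
      have := hz.2.1
      have := hz'.2.1
      omega)
    exact ⟨c, h1, h2⟩
  have hdrift : ∀ j, j < m → ∀ r ∈ W j, Z j r ∧ (A j \ C r).card ≤ 3 ∧ (C r \ A j).card ≤ 3 := by
    intro j hj r hr
    rw [memW] at hr
    have hZr : Z j r := Reach.mem (hZu j hj) hr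
    refine ⟨hZr, ?_⟩
    rcases reach_three G hP (Z j) _ r hr with h | h | h | h
    · rw [h]
      show (nb G I (u (2 * j)) \ nb G I (u (2 * j))).card ≤ 3 ∧
        (nb G I (u (2 * j)) \ nb G I (u (2 * j))).card ≤ 3
      rw [Finset.sdiff_self]; simp
    · obtain ⟨h1, h2⟩ := hstep j hj _ _ (hZu j hj) h.1 h.2
      exact ⟨le_trans h1 (by norm_num), le_trans h2 (by norm_num)⟩
    · obtain ⟨_, z, hz, h3, h4⟩ := h
      obtain ⟨h5, h6⟩ := hstep j hj _ _ (hZu j hj) hz h3
      obtain ⟨h7, h8⟩ := hstep j hj _ _ hz hZr h4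
      have h9 := sdiff_tri (A j) (C z) (C r)
      have h10 := sdiff_tri (C r) (C z) (A j)
      have h5' : (A j \ C z).card ≤ 1 := h5
      have h6' : (C z \ A j).card ≤ 1 := h6
      constructor <;> omega
    · obtain ⟨_, w, ⟨hw, z, hz, h3, h4⟩, _, h11⟩ := h
      obtain ⟨h5, h6⟩ := hstep j hj _ _ (hZu j hj) hz h3
      obtain ⟨h7, h8⟩ := hstep j hj _ _ hz hw h4
      obtain ⟨h12, h13⟩ := hstep j hj _ _ hw hZr h11
      have h9 := sdiff_tri (A j) (C z) (C w)
      have h10 := sdiff_tri (C w) (C z) (A j)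
      have h14 := sdiff_tri (A j) (C w) (C r)
      have h15 := sdiff_tri (C r) (C w) (A j)
      have h5' : (A j \ C z).card ≤ 1 := h5
      have h6' : (C z \ A j).card ≤ 1 := h6
      constructor <;> omega
  have hsub : ∀ i j, i < j → j < m → A j ⊆ A i := fun i j hij hj =>
    hu.sub _ _ (by omega) (by omega)
  have hgap : ∀ i j, i < j → j < m → 20 ≤ (A i \ A j).card := fun i j hij hj =>
    hu.gap _ _ (by omega) (by omega)
  -- elements of the block `j` have their neighbourhood inside `A i` for `i < j`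
  have hCsub : ∀ i j, i < j → j < m → ∀ r ∈ W j, C r ⊆ A i := by
    intro i j hij hj r hr
    obtain ⟨hZ, h1, h2⟩ := hdrift j hj r hr
    have h3 : ¬ G.Adj r (u (2 * i)) := hZ.2.2.2 i (by omega) (by omega)
    rcases cross5 G hP I hI r (u (2 * i)) h3 with h | h | h
    · exact h
    · exfalso
      have h4 := sdiff_tri (A i) (C r) (A j)
      have h5 : (A i \ C r).card = 0 := by
        rw [Finset.card_eq_zero, Finset.sdiff_eq_empty_iff_subset]; exact h
      have h6 := hgap i j hij hj
      omega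
    · exfalso
      obtain ⟨c, hc, hc1, hc2⟩ := exists_common (A j) (C r) (A i) (by
        have h7 := hbig j hj
        have h5 : (A j \ A i).card = 0 := by
          rw [Finset.card_eq_zero, Finset.sdiff_eq_empty_iff_subset]; exact hsub i j hij hj
        omega)
      exact Finset.disjoint_left.1 h hc1 hc2
  have hanti : ∀ i j, i < j → j < m → ∀ x ∈ W i, ∀ y ∈ W j, x ≠ y ∧ ¬ G.Adj x y := by
    intro i j hij hj x hx y hy
    obtain ⟨hZx, hx1, hx2⟩ := hdrift i (by omega) x hx
    obtain ⟨hZy, hy1, hy2⟩ := hdrift j hj y hy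
    have h6 := hgap i j hij hj
    constructor
    · intro h
      rw [← h] at hy2
      have h4 := sdiff_tri (A i) (C x) (A j)
      omega
    · intro h
      obtain ⟨c, hc, hc1, hc2⟩ := exists_common (A j) (C x) (C y) (by
        have h7 := hbig j hj
        have h8 : (A j \ C x).card ≤ 3 :=
          (Finset.card_le_card (Finset.sdiff_subset_sdiff (hsub i j hij hj) subset_rfl)).trans hx1
        omega)
      obtain ⟨h9, _⟩ := hadjC x y h ⟨c, hc1, hc2⟩
      have h10 := sdiff_tri (A i) (C x) (A j)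
      have h11 := sdiff_tri (C x) (C y) (A j)
      omega
  apply ordered_color G K hnot hcrit hcol m W
  · intro i _
    exact ⟨u (2 * i), (memW _ _).2 Relation.ReflTransGen.refl⟩
  · exact hanti
  · intro q j hj hq ⟨r, hr, hqr⟩
    obtain ⟨hZr, hr1, hr2⟩ := hdrift j hj r hr
    -- the vertex `q` is adjacent to all earlier chain vertices
    have hqu : ∀ i, i < j → G.Adj q (u (2 * i)) := by
      intro i hij
      by_contra hqi
      have hri : ¬ G.Adj r (u (2 * i)) := hZr.2.2.2 i (by omega) (by omega)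
      by_cases hqI : q ∈ I
      · have h1 : q ∈ C r := mem_nb.2 ⟨hqI, hqr.symm⟩
        exact hqi (mem_nb.1 (hCsub i j hij hj r hr h1)).2.symm
      by_cases hint : ∃ c ∈ C q, c ∈ C r
      · obtain ⟨h1, h2⟩ := hadjC q r hqr hint
        have h3 := sdiff_tri (A j) (C r) (C q)
        have h4 := sdiff_tri (C q) (C r) (A j)
        have hZq : ¬ Z j q := by
          intro hZ
          apply hq
          rw [memW] at hr ⊢
          exact hr.tail ⟨hZr, hZ, hqr.symm⟩
        have hex : ∃ l, l < m ∧ l ≠ j ∧ G.Adj q (u (2 * l)) := by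
          by_contra hno
          push Not at hno
          exact hZq ⟨hqI, by omega, by omega, fun l hl hlj => hno l hl hlj⟩
        obtain ⟨l, hl, hlj, hql⟩ := hex
        rcases lt_or_gt_of_ne hlj with h | h
        · -- `l < j`
          obtain ⟨c, hc, hc1, hc2⟩ := exists_common (A j) (C q) (A l) (by
            have h7 := hbig j hj
            have h5 : (A j \ A l).card = 0 := by
              rw [Finset.card_eq_zero, Finset.sdiff_eq_empty_iff_subset]; exact hsub l j h hj
            omega)
          obtain ⟨h8, h9⟩ := hadjC q (u (2 * l)) hql ⟨c, hc1, hc2⟩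
          have h9' : (A l \ C q).card ≤ 1 := h9
          have h10 := sdiff_tri (A l) (C q) (A j)
          have h11 := hgap l j h hj
          omega
        · -- `j < l`
          obtain ⟨c, hc, hc1, hc2⟩ := exists_common (A l) (C q) (A l) (by
            have h7 := hbig l hl
            have h5 : (A l \ A l).card = 0 := by
              rw [Finset.sdiff_self]; simp
            have h6 : (A l \ C q).card ≤ (A j \ C q).card :=
              Finset.card_le_card (Finset.sdiff_subset_sdiff (hsub j l h hl) subset_rfl)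
            omega)
          obtain ⟨h8, h9⟩ := hadjC q (u (2 * l)) hql ⟨c, hc1, hc2⟩
          have h8' : (C q \ A l).card ≤ 1 := h8
          have h10 := sdiff_tri (A j) (C q) (A l)
          have h11 := hgap j l h hl
          omega
      · push Not at hint
        have hCr := hCsub i j hij hj r hr
        -- every vertex of `A i` outside `C r` is in `C q`
        obtain ⟨a, ha, har, _⟩ := exists_common (A j) (C r) (C r) (by
          have h7 := hbig j hj
          omega)
        have hall : ∀ y ∈ A i, y ∉ C r → y ∈ C q := by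
          intro y hy hyr
          by_contra hyq
          have haI := (mem_nb.1 har).1
          have hyI := (mem_nb.1 hy).1
          exact hP q r a (u (2 * i)) y hqr (mem_nb.1 har).2 (mem_nb.1 (hCr har)).2.symm
            (mem_nb.1 hy).2 (fun h => hint a (mem_nb.2 ⟨haI, h⟩) har) hqi
            (fun h => hyq (mem_nb.2 ⟨hyI, h⟩)) hri (fun h => hyr (mem_nb.2 ⟨hyI, h⟩))
            (hI a haI y hyI)
        -- the spare index
        let B : Finset V := nb G I (u (2 * i + 1))
        have hBj : A j ⊆ B := hu.sub _ _ (by omega) (by omega)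
        have hBi : B ⊆ A i := hu.sub _ _ (by omega) (by omega)
        have hBg1 : 20 ≤ (B \ A j).card := hu.gap _ _ (by omega) (by omega)
        have hBg2 : 20 ≤ (A i \ B).card := hu.gap _ _ (by omega) (by omega)
        -- `C q \ B` is large
        have hD : 16 ≤ (C q \ B).card := by
          have h1 : A i \ B ⊆ (C q \ B) ∪ (C r \ A j) := by
            intro x hx
            rw [Finset.mem_sdiff] at hx
            rw [Finset.mem_union, Finset.mem_sdiff, Finset.mem_sdiff]
            by_cases hxr : x ∈ C r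
            · exact Or.inr ⟨hxr, fun h => hx.2 (hBj h)⟩
            · exact Or.inl ⟨hall x hx.1 hxr, hx.2⟩
          have h2 := (Finset.card_le_card h1).trans (Finset.card_union_le _ _)
          omega
        -- a common element of `C q` and `B`
        have hE : ∃ x ∈ C q, x ∈ B := by
          by_contra hno
          push Not at hno
          have h1 : B \ A j ⊆ C r \ A j := by
            intro x hx
            rw [Finset.mem_sdiff] at hx ⊢
            refine ⟨?_, hx.2⟩
            by_contra hxr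
            exact hno x (hall x (hBi hx.1) hxr) hx.1
          have h2 := Finset.card_le_card h1
          omega
        have haB : a ∈ B := hBj ha
        have haq : a ∉ C q := fun h => hint a h har
        by_cases hqh : G.Adj q (u (2 * i + 1))
        · obtain ⟨h1, _⟩ := hadjC q (u (2 * i + 1)) hqh hE
          have h1' : (C q \ B).card ≤ 1 := h1
          omega
        · rcases cross5 G hP I hI q (u (2 * i + 1)) hqh with h | h | h
          · have h5 : (C q \ B).card = 0 := by
              rw [Finset.card_eq_zero, Finset.sdiff_eq_empty_iff_subset]; exact h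
            omega
          · exact haq (h haB)
          · obtain ⟨x, hx1, hx2⟩ := hE
            exact Finset.disjoint_left.1 h hx1 hx2
    rw [Finset.card_le_one]
    intro i hi i' hi'
    by_contra hne
    rw [Finset.mem_filter, Finset.mem_range] at hi hi'
    obtain ⟨hij, y, hy, hqy⟩ := hi
    obtain ⟨hij', y', hy', hqy'⟩ := hi'
    rw [memW] at hy hy'
    refine not_mixed_twice G hP hy (hqu i hij) hqy hy' (hqu i' hij') hqy' ?_
    intro a b ha hb
    rcases lt_or_gt_of_ne hne with h | h
    · exact (hanti i i' h (by omega) a ((memW _ _).2 ha) b ((memW _ _).2 hb)).2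
    · exact fun hab => (hanti i' i h (by omega) b ((memW _ _).2 hb) a ((memW _ _).2 ha)).2 hab.symm

end cricket

end Pool.Agent.H265R2.P5
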