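import Pool.Agent.H265R2.P5d

set_option autoImplicit false

namespace Pool.Agent.H265R2.P5

open Finset Classical
open Pool.Agent.H265R2.CritP4

universe u

variable {V : Type u}

theorem bull_laminar (G : SimpleGraph V) (hP : NoP5 G) (hB : NoBull G) (I : Finset V)
    (hI : ∀ x ∈ I, ∀ y ∈ I, ¬ G.Adj x y) (q q' : V) :
    nb G I q ⊆ nb G I q' ∨ nb G I q' ⊆ nb G I q ∨ Disjoint (nb G I q) (nb G I q') := by
  by_cases hadj : G.Adj q q'
  · by_contra hcon
    push Not at hcon
    obtain ⟨h1, h2, h3⟩ := hcon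
    obtain ⟨x, hx, hx'⟩ := Finset.not_subset.1 h1
    obtain ⟨y, hy, hy'⟩ := Finset.not_subset.1 h2
    obtain ⟨c, hc1, hc2⟩ := Finset.not_disjoint_iff.1 h3
    rw [mem_nb] at hx hy hc1 hc2
    exact hB q q' c x y hadj hc1.2 hc2.2 hx.2 hy.2 (fun h => hx' (mem_nb.2 ⟨hx.1, h.symm⟩))
      (hI x hx.1 c hc1.1) (hI x hx.1 y hy.1) (fun h => hy' (mem_nb.2 ⟨hy.1, h.symm⟩))
      (hI y hy.1 c hc1.1)
  · exact cross5 G hP I hI q q' hadj

/-- A threshold of a chain. -/
def Thr (G : SimpleGraph V) (I : Finset V) (v : ℕ → V) (M p : ℕ) (q : V) : Prop :=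
  nb G I (v (p + 1)) ⊆ nb G I q ∧ (∃ z ∈ nb G I q, z ∉ nb G I (v (p + 1))) ∧
    nb G I q ⊆ nb G I (v p) ∧ (∃ i, i ≤ p ∧ ¬ G.Adj q (v i)) ∧ ∃ l, p < l ∧ l < M ∧ G.Adj q (v l)

theorem Chain.nonempty {G : SimpleGraph V} {I : Finset V} {g : ℕ} {u : ℕ → V} {m : ℕ}
    (hu : Chain G I g u m) (hg : 1 ≤ g) {i : ℕ} (hi : i < m) : ∃ a, a ∈ nb G I (u i) := by
  have h : (nb G I (u i)).Nonempty := by
    rw [← Finset.card_pos]
    have := hu.big i hi
    omega
  exact h

theorem Chain.exists_gap {G : SimpleGraph V} {I : Finset V} {g : ℕ} {u : ℕ → V} {m : ℕ}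
    (hu : Chain G I g u m) (hg : 1 ≤ g) {i j : ℕ} (hij : i < j) (hj : j < m) :
    ∃ a, a ∈ nb G I (u i) ∧ a ∉ nb G I (u j) := by
  have h : (nb G I (u i) \ nb G I (u j)).Nonempty := by
    rw [← Finset.card_pos]
    have := hu.gap i j hij hj
    omega
  obtain ⟨a, ha⟩ := h
  rw [Finset.mem_sdiff] at ha
  exact ⟨a, ha.1, ha.2⟩

theorem Chain.sub' {G : SimpleGraph V} {I : Finset V} {g : ℕ} {u : ℕ → V} {m : ℕ}
    (hu : Chain G I g u m) {i j : ℕ} (hij : i ≤ j) (hj : j < m) :
    nb G I (u j) ⊆ nb G I (u i) := by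
  rcases Nat.eq_or_lt_of_le hij with h | h
  · rw [h]
  · exact hu.sub i j h hj

theorem thr_adj (G : SimpleGraph V) (hP : NoP5 G) (hB : NoBull G) (I : Finset V)
    (hI : ∀ x ∈ I, ∀ y ∈ I, ¬ G.Adj x y) (g : ℕ) (hg : 1 ≤ g) (u : ℕ → V) (M : ℕ)
    (hu : Chain G I g u M) (p p' : ℕ) (hpp : p + 2 ≤ p') (hp' : p' + 1 < M) (q q' : V)
    (hq : Thr G I u M p q) (hq' : Thr G I u M p' q') : G.Adj q q' := by
  by_contra hqq
  obtain ⟨h1, ⟨z, hz, hz'⟩, h2, _, l, hl, hlM, hql⟩ := hq
  obtain ⟨h1', ⟨z', hz2, _⟩, h2', ⟨i', hi', hqi'⟩, _⟩ := hq'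
  have hzI := (mem_nb.1 hz).1
  have hznot : ∀ t, p < t → t < M → ¬ G.Adj z (u t) := by
    intro t ht htM h
    exact hz' (hu.sub' ht htM (mem_nb.2 ⟨hzI, h.symm⟩))
  -- `q` is complete to the later chain vertices
  have hcomp : ∀ t, p < t → t < M → G.Adj q (u t) := by
    intro t ht htM
    by_contra hqt
    have hlt : max l t < M := max_lt hlM htM
    obtain ⟨a, ha⟩ := hu.nonempty hg hlt
    have hal := hu.sub' (le_max_left l t) hlt ha
    have hat := hu.sub' (le_max_right l t) hlt ha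
    have haq : a ∈ nb G I q := h1 (hu.sub' hl hlM hal)
    have haI := (mem_nb.1 haq).1
    exact hB q a (u l) z (u t) (mem_nb.1 haq).2 hql (mem_nb.1 hal).2.symm (mem_nb.1 hz).2
      (mem_nb.1 hat).2.symm (hI z hzI a haI) (hznot l hl hlM) (hznot t ht htM)
      (fun h => hqt h.symm) (hu.nadj _ _ htM hlM)
  -- a later nonneighbour of `q'`
  have hex : ∃ t, p < t ∧ t ≤ p' ∧ ¬ G.Adj q' (u t) := by
    by_cases hip : p < i'
    · exact ⟨i', hip, hi', hqi'⟩
    by_cases hqt : G.Adj q' (u (p + 1))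
    · exfalso
      obtain ⟨x, hx1, hx2⟩ := hu.exists_gap hg (show p + 1 < p' by omega) (show p' < M by omega)
      obtain ⟨y, hy1, hy2⟩ := hu.exists_gap hg (show i' < p + 1 by omega) (show p + 1 < M by omega)
      have hxI := (mem_nb.1 hx1).1
      have hyI := (mem_nb.1 hy1).1
      have hxi' := hu.sub' (show i' ≤ p + 1 by omega) (show p + 1 < M by omega) hx1
      exact hP q' (u (p + 1)) x (u i') y hqt (mem_nb.1 hx1).2 (mem_nb.1 hxi').2.symm
        (mem_nb.1 hy1).2 (fun h => hx2 (h2' (mem_nb.2 ⟨hxI, h⟩))) hqi'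
        (fun h => hy2 (hu.sub' (show p + 1 ≤ p' by omega) (show p' < M by omega)
          (h2' (mem_nb.2 ⟨hyI, h⟩))))
        (hu.nadj _ _ (by omega) (by omega)) (fun h => hy2 (mem_nb.2 ⟨hyI, h⟩))
        (hI x hxI y hyI)
    · exact ⟨p + 1, by omega, by omega, hqt⟩
  obtain ⟨t, ht1, ht2, hqt⟩ := hex
  have hat : z' ∈ nb G I (u t) := hu.sub' ht2 (by omega) (h2' hz2)
  have haq : z' ∈ nb G I q := h1 (hu.sub' ht1 (by omega) hat)
  have hz'I := (mem_nb.1 haq).1
  exact hB q z' (u t) z q' (mem_nb.1 haq).2 (hcomp t ht1 (by omega)) (mem_nb.1 hat).2.symm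
    (mem_nb.1 hz).2 (mem_nb.1 hz2).2.symm (hI z hzI z' hz'I) (hznot t ht1 (by omega))
    (fun h => hz' (hu.sub' (show p + 1 ≤ p' by omega) (show p' < M by omega)
      (h2' (mem_nb.2 ⟨hzI, h.symm⟩)))) (fun h => hqq h.symm) hqt

theorem exists_free_interval (G : SimpleGraph V) (hP : NoP5 G) (hB : NoBull G) (I : Finset V)
    (hI : ∀ x ∈ I, ∀ y ∈ I, ¬ G.Adj x y) (g : ℕ) (hg : 1 ≤ g) (u : ℕ → V) (c L : ℕ)
    (hclique : ∀ S : Finset V, (∀ x ∈ S, ∀ y ∈ S, x ≠ y → G.Adj x y) → S.card ≤ c)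
    (hu : Chain G I g u ((c + 1) * L)) :
    ∃ v : ℕ → V, Chain G I g v L ∧ ∀ p, p + 1 < L → ∀ q, ¬ Thr G I v L p q := by
  by_contra hcon
  push Not at hcon
  have hb : ∀ b, b < c + 1 → b * L + L ≤ (c + 1) * L := by
    intro b hb
    calc b * L + L = (b + 1) * L := by ring
      _ ≤ (c + 1) * L := Nat.mul_le_mul_right _ hb
  have hthr : ∀ b, b < c + 1 → ∃ p, p + 1 < L ∧ ∃ q,
      Thr G I u ((c + 1) * L) (b * L + p) q := by
    intro b hbc
    have hbL := hb b hbc
    obtain ⟨p, hp, q, h1, h2, h3, ⟨i, hi, h4⟩, l, hl, hlL, h5⟩ :=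
      hcon (fun t => u (b * L + t)) ⟨fun i hi => hu.out _ (by omega),
        fun i j hi hj => hu.nadj _ _ (by omega) (by omega),
        fun i j hij hj => hu.sub _ _ (by omega) (by omega),
        fun i j hij hj => hu.gap _ _ (by omega) (by omega),
        fun i hi => hu.big _ (by omega)⟩
    exact ⟨p, hp, q, h1, h2, h3, ⟨b * L + i, by omega, h4⟩, b * L + l, by omega, by omega, h5⟩
  have hVne : Nonempty V := by
    obtain ⟨_, _, q, _⟩ := hthr 0 (by omega)
    exact ⟨q⟩
  choose! p hp q hq using hthr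
  have hadj : ∀ b b', b < b' → b' < c + 1 → G.Adj (q b) (q b') := by
    intro b b' hbb hb'
    have h1 := hp b (by omega)
    have h2 := hp b' hb'
    have h3 := hb b' hb'
    have h4 : (b + 1) * L ≤ b' * L := Nat.mul_le_mul_right _ hbb
    have h5 : (b + 1) * L = b * L + L := by ring
    exact thr_adj G hP hB I hI g hg u _ hu (b * L + p b) (b' * L + p b') (by omega) (by omega)
      (q b) (q b') (hq b (by omega)) (hq b' hb')
  have hinj : Set.InjOn q (Finset.range (c + 1) : Set ℕ) := by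
    intro x hx y hy hxy
    simp only [Finset.coe_range, Set.mem_Iio] at hx hy
    by_contra hne
    rcases lt_or_gt_of_ne hne with h | h
    · exact (hadj x y h hy).ne hxy
    · exact (hadj y x h hx).ne hxy.symm
  have := hclique ((Finset.range (c + 1)).image q) (by
    intro x hx y hy hxy
    obtain ⟨i, hi, rfl⟩ := Finset.mem_image.1 hx
    obtain ⟨j, hj, rfl⟩ := Finset.mem_image.1 hy
    rw [Finset.mem_range] at hi hj
    rcases lt_trichotomy i j with h | h | h
    · exact hadj i j h hj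
    · exact absurd (by rw [h]) hxy
    · exact (hadj j i h hi).symm)
  rw [Finset.card_image_of_injOn hinj, Finset.card_range] at this
  omega

section bull

variable [Fintype V] (G : SimpleGraph V) (hP : NoP5 G) (hB : NoBull G) (I : Finset V)
  (hI : ∀ x ∈ I, ∀ y ∈ I, ¬ G.Adj x y)

include hP hB hI

theorem bull_bound (K : ℕ) (hnot : ¬ G.Colorable K) (hcol : G.Colorable (K + 1))
    (hcrit : ∀ v, (G.induce {v}ᶜ).Colorable K) (g : ℕ) (hg : 1 ≤ g) (m : ℕ) (u : ℕ → V)
    (hu : Chain G I g u (2 * m + 1))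
    (hthr : ∀ p, p + 1 < 2 * m + 1 → ∀ q, ¬ Thr G I u (2 * m + 1) p q) :
    m ≤ (1 * K + 1) * (K + 2) := by
  let C : V → Finset V := fun v => nb G I v
  let A : ℕ → Finset V := fun t => nb G I (u (2 * t))
  let Z : ℕ → V → Prop := fun j r => r ∉ I ∧ C r = A j ∧
    ∀ i, i ≤ m → i ≠ j → ¬ G.Adj r (u (2 * i))
  let W : ℕ → Finset V := fun j => Finset.univ.filter (fun y => Reach G (Z j) (u (2 * j)) y)
  have memW : ∀ j y, y ∈ W j ↔ Reach G (Z j) (u (2 * j)) y := by intro j y; simp [W]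
  have memC : ∀ v x, x ∈ C v ↔ x ∈ I ∧ G.Adj v x := fun v x => mem_nb
  have hlam : ∀ q q', C q ⊆ C q' ∨ C q' ⊆ C q ∨ Disjoint (C q) (C q') :=
    fun q q' => bull_laminar G hP hB I hI q q'
  have hZu : ∀ j, j ≤ m → Z j (u (2 * j)) := by
    intro j hj
    exact ⟨hu.out _ (by omega), rfl, fun i hi _ => hu.nadj _ _ (by omega) (by omega)⟩
  have hZW : ∀ j, j < m → ∀ r ∈ W j, Z j r := by
    intro j hj r hr
    rw [memW] at hr
    exact Reach.mem (hZu j hj.le) hr
  have hsub : ∀ i j, i ≤ j → j ≤ m → A j ⊆ A i := fun i j hij hj =>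
    hu.sub' (by omega) (by omega)
  have hgap : ∀ i j, i < j → j ≤ m → ∃ x, x ∈ A i ∧ x ∉ A j := fun i j hij hj =>
    hu.exists_gap hg (by omega) (by omega)
  have hanti : ∀ i j, i < j → j < m → ∀ x ∈ W i, ∀ y ∈ W j, x ≠ y ∧ ¬ G.Adj x y := by
    intro i j hij hj r hr s hs
    have hZr := hZW i (by omega) r hr
    have hZs := hZW j hj s hs
    obtain ⟨x, hx1, hx2⟩ := hgap i j hij hj.le
    constructor
    · intro h
      apply hx2
      rw [← hZs.2.1, ← h, hZr.2.1]
      exact hx1
    · intro h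
      obtain ⟨a, ha⟩ := hu.nonempty hg (show 2 * m < 2 * m + 1 by omega)
      have haj : a ∈ A j := hsub j m hj.le le_rfl ha
      have has : a ∈ C s := by rw [hZs.2.1]; exact haj
      have har : a ∈ C r := by rw [hZr.2.1]; exact hsub i j hij.le hj.le haj
      have hxr : x ∈ C r := by rw [hZr.2.1]; exact hx1
      rw [memC] at has har hxr
      exact hB r a s x (u (2 * m)) har.2 h has.2.symm hxr.2 (mem_nb.1 ha).2.symm
        (hI x hxr.1 a har.1)
        (fun h' => hx2 (by rw [← hZs.2.1, memC]; exact ⟨hxr.1, h'.symm⟩))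
        (fun h' => hx2 (hsub j m hj.le le_rfl (mem_nb.2 ⟨hxr.1, h'.symm⟩)))
        (fun h' => hZr.2.2 m le_rfl (by omega) h'.symm)
        (fun h' => hZs.2.2 m le_rfl (by omega) h'.symm)
  apply ordered_color G K hnot hcrit hcol m W
  · intro i _
    exact ⟨u (2 * i), (memW _ _).2 Relation.ReflTransGen.refl⟩
  · exact hanti
  · intro q j hj hq ⟨r, hr, hqr⟩
    have hZr := hZW j hj r hr
    have hZq : ¬ Z j q := by
      intro hZ
      apply hq
      rw [memW] at hr ⊢
      exact hr.tail ⟨hZr, hZ, hqr.symm⟩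
    -- the vertex `q` is adjacent to all earlier chain vertices
    have hqu : ∀ i, i < j → G.Adj q (u (2 * i)) := by
      intro i hij
      by_contra hqi
      have hri : ¬ G.Adj r (u (2 * i)) := hZr.2.2 i (by omega) (by omega)
      have hCr : C r = A j := hZr.2.1
      have hji : A j ⊆ A i := hsub i j hij.le hj.le
      by_cases hqI : q ∈ I
      · have h1 : q ∈ C r := mem_nb.2 ⟨hqI, hqr.symm⟩
        rw [hCr] at h1
        exact hqi (mem_nb.1 (hji h1)).2.symm
      -- `C q` meets `A j`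
      have hmeet : ∃ a ∈ C q, a ∈ A j := by
        by_contra hno
        push Not at hno
        obtain ⟨a, ha⟩ := hu.nonempty hg (show 2 * j < 2 * m + 1 by omega)
        have haI := (mem_nb.1 ha).1
        have har : a ∈ C r := by rw [hCr]; exact ha
        have hall : ∀ y ∈ A i, y ∉ A j → y ∈ C q := by
          intro y hy hyj
          by_contra hyq
          have hyI := (mem_nb.1 hy).1
          exact hP q r a (u (2 * i)) y hqr (mem_nb.1 har).2 (mem_nb.1 (hji ha)).2.symm
            (mem_nb.1 hy).2 (fun h => hno a (mem_nb.2 ⟨haI, h⟩) ha) hqi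
            (fun h => hyq (mem_nb.2 ⟨hyI, h⟩)) hri
            (fun h => hyj (by rw [← hCr, memC]; exact ⟨hyI, h⟩))
            (hI a haI y hyI)
        obtain ⟨x, hx1, hx2⟩ := hu.exists_gap hg (show 2 * i + 1 < 2 * j by omega)
          (show 2 * j < 2 * m + 1 by omega)
        obtain ⟨y, hy1, hy2⟩ := hu.exists_gap hg (show 2 * i < 2 * i + 1 by omega)
          (show 2 * i + 1 < 2 * m + 1 by omega)
        have hx3 : x ∈ A i := hu.sub' (show 2 * i ≤ 2 * i + 1 by omega)
          (show 2 * i + 1 < 2 * m + 1 by omega) hx1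
        have hxq := hall x hx3 hx2
        have hy3 : y ∉ A j := fun h => hy2 (hu.sub' (show 2 * i + 1 ≤ 2 * j by omega)
          (show 2 * j < 2 * m + 1 by omega) h)
        have hyq := hall y hy1 hy3
        have ha1 := hu.sub' (show 2 * i + 1 ≤ 2 * j by omega)
          (show 2 * j < 2 * m + 1 by omega) ha
        rcases hlam q (u (2 * i + 1)) with h | h | h
        · exact hy2 (h hyq)
        · exact hno a (h ha1) ha
        · exact Finset.disjoint_left.1 h hxq hx1
      obtain ⟨a, haq, haj⟩ := hmeet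
      have haI := (mem_nb.1 haq).1
      have har : a ∈ C r := by rw [hCr]; exact haj
      -- `A j ⊆ C q`
      have hlow : A j ⊆ C q := by
        intro x hx
        by_contra hxq
        have hCq : C q ⊆ A j := by
          rcases hlam q (u (2 * j)) with h | h | h
          · exact h
          · exact absurd (h hx) hxq
          · exact absurd haj (Finset.disjoint_left.1 h haq)
        obtain ⟨y, hy1, hy2⟩ := hgap i j hij hj.le
        have hxI := (mem_nb.1 hx).1
        have hyI := (mem_nb.1 hy1).1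
        have hxr : x ∈ C r := by rw [hCr]; exact hx
        exact hP q r x (u (2 * i)) y hqr (mem_nb.1 hxr).2 (mem_nb.1 (hji hx)).2.symm
          (mem_nb.1 hy1).2 (fun h => hxq (mem_nb.2 ⟨hxI, h⟩)) hqi
          (fun h => hy2 (hCq (mem_nb.2 ⟨hyI, h⟩))) hri
          (fun h => hy2 (by rw [← hCr, memC]; exact ⟨hyI, h⟩)) (hI x hxI y hyI)
      -- `C q ⊆ A i`
      have hupp : C q ⊆ A i := by
        intro y hy
        by_contra hyi
        have hyI := (mem_nb.1 hy).1
        exact hB q a r y (u (2 * i)) (mem_nb.1 haq).2 hqr (mem_nb.1 har).2.symm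
          (mem_nb.1 hy).2 (mem_nb.1 (hji haj)).2.symm (hI y hyI a haI)
          (fun h => hyi (hji (by rw [← hCr, memC]; exact ⟨hyI, h.symm⟩)))
          (fun h => hyi (mem_nb.2 ⟨hyI, h.symm⟩)) (fun h => hqi h.symm) (fun h => hri h.symm)
      by_cases hEq : C q ⊆ A j
      · -- `C q = A j`
        have hCq : C q = A j := Finset.Subset.antisymm hEq hlow
        have hex : ∃ l, l ≤ m ∧ l ≠ j ∧ G.Adj q (u (2 * l)) := by
          by_contra hno
          push Not at hno
          exact hZq ⟨hqI, hCq, fun l hl hlj => hno l hl hlj⟩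
        obtain ⟨l, hl, hlj, hql⟩ := hex
        rcases lt_or_gt_of_ne hlj with h | h
        · -- `l < j`
          have hli : l ≠ i := fun h' => hqi (h' ▸ hql)
          have hal : a ∈ A l := hsub l j h.le hj.le haj
          rcases lt_or_gt_of_ne hli with h' | h'
          · -- `l < i < j`
            obtain ⟨x, hx1, hx2⟩ := hgap l i h' (by omega)
            have hxI := (mem_nb.1 hx1).1
            exact hB (u (2 * l)) a q x (u (2 * i)) (mem_nb.1 hal).2 hql.symm
              (mem_nb.1 haq).2.symm (mem_nb.1 hx1).2 (mem_nb.1 (hji haj)).2.symm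
              (hI x hxI a haI) (fun h'' => hx2 (hupp (mem_nb.2 ⟨hxI, h''.symm⟩)))
              (fun h'' => hx2 (mem_nb.2 ⟨hxI, h''.symm⟩))
              (hu.nadj _ _ (by omega) (by omega)) (fun h'' => hqi h''.symm)
          · -- `i < l < j`
            obtain ⟨x, hx1, hx2⟩ := hgap l j h hj.le
            obtain ⟨y, hy1, hy2⟩ := hgap i l h' (by omega)
            have hxI := (mem_nb.1 hx1).1
            have hyI := (mem_nb.1 hy1).1
            have hxi : x ∈ A i := hsub i l h'.le (by omega) hx1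
            exact hP q (u (2 * l)) x (u (2 * i)) y hql (mem_nb.1 hx1).2
              (mem_nb.1 hxi).2.symm (mem_nb.1 hy1).2
              (fun h'' => hx2 (hEq (mem_nb.2 ⟨hxI, h''⟩))) hqi
              (fun h'' => hy2 (hsub l j h.le hj.le (hEq (mem_nb.2 ⟨hyI, h''⟩))))
              (hu.nadj _ _ (by omega) (by omega)) (fun h'' => hy2 (mem_nb.2 ⟨hyI, h''⟩))
              (hI x hxI y hyI)
        · -- threshold at `2 j`
          obtain ⟨z, hz1, hz2⟩ := hu.exists_gap hg (show 2 * j < 2 * j + 1 by omega)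
            (show 2 * j + 1 < 2 * m + 1 by omega)
          refine hthr (2 * j) (by omega) q ⟨?_, ⟨z, ?_, hz2⟩, ?_, ⟨2 * i, by omega, hqi⟩,
            2 * l, by omega, by omega, hql⟩
          · exact (hu.sub' (show 2 * j ≤ 2 * j + 1 by omega)
              (show 2 * j + 1 < 2 * m + 1 by omega)).trans hlow
          · exact hlow hz1
          · exact hEq
      · obtain ⟨z, hz1, hz2⟩ := Finset.not_subset.1 hEq
        have hzI := (mem_nb.1 hz1).1
        -- `q` is adjacent to the last chain vertex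
        have hqm : G.Adj q (u (2 * m)) := by
          by_contra hqm
          obtain ⟨b, hb⟩ := hu.nonempty hg (show 2 * m < 2 * m + 1 by omega)
          have hbj : b ∈ A j := hsub j m hj.le le_rfl hb
          have hbI := (mem_nb.1 hb).1
          have hbr : b ∈ C r := by rw [hCr]; exact hbj
          exact hB q b r z (u (2 * m)) (mem_nb.1 (hlow hbj)).2 hqr (mem_nb.1 hbr).2.symm
            (mem_nb.1 hz1).2 (mem_nb.1 hb).2.symm (hI z hzI b hbI)
            (fun h => hz2 (by rw [← hCr, memC]; exact ⟨hzI, h.symm⟩))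
            (fun h => hz2 (hsub j m hj.le le_rfl (mem_nb.2 ⟨hzI, h.symm⟩)))
            (fun h => hqm h.symm) (fun h => hZr.2.2 m le_rfl (by omega) h.symm)
        -- the position of `C q` in the chain
        let P : ℕ → Prop := fun p => C q ⊆ nb G I (u p)
        have hP0 : P (2 * i) := hupp
        let p := Nat.findGreatest P (2 * j)
        have hp1 : P p := Nat.findGreatest_spec (P := P) (show 2 * i ≤ 2 * j by omega) hP0
        have hp2 : 2 * i ≤ p := Nat.le_findGreatest (by omega) hP0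
        have hp3 : p ≤ 2 * j := Nat.findGreatest_le _
        have hp4 : p < 2 * j := by
          refine lt_of_le_of_ne hp3 (fun h => hEq ?_)
          have := hp1
          rw [h] at this
          exact this
        have hp5 : ¬ P (p + 1) := Nat.findGreatest_is_greatest (Nat.lt_succ_self _) (by omega)
        obtain ⟨y, hy1, hy2⟩ := Finset.not_subset.1 hp5
        have hp6 : nb G I (u (p + 1)) ⊆ C q := by
          rcases hlam q (u (p + 1)) with h | h | h
          · exact absurd h hp5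
          · exact h
          · exact absurd (hu.sub' (show p + 1 ≤ 2 * j by omega)
              (show 2 * j < 2 * m + 1 by omega) haj) (Finset.disjoint_left.1 h haq)
        exact hthr p (by omega) q ⟨hp6, ⟨y, hy1, hy2⟩, hp1, ⟨2 * i, hp2, hqi⟩,
          2 * m, by omega, by omega, hqm⟩
    rw [Finset.card_le_one]
    intro i hi i' hi'
    by_contra hne
    rw [Finset.mem_filter, Finset.mem_range] at hi hi'
    obtain ⟨hij, y, hy, hqy⟩ := hi
    obtain ⟨hij', y', hy', hqy'⟩ := hi'
    rw [memW] at hy hy'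
    refine not_mixed_twice G hP hy (hqu i hij) hqy hy' (hqu i' hij') hqy' ?_
    intro a b ha hb
    rcases lt_or_gt_of_ne hne with h | h
    · exact (hanti i i' h (by omega) a ((memW _ _).2 ha) b ((memW _ _).2 hb)).2
    · exact fun hab => (hanti i' i h (by omega) b ((memW _ _).2 hb) a ((memW _ _).2 ha)).2 hab.symm

end bull

end Pool.Agent.H265R2.P5
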