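import Pool.Agent.H265R2.P5e
import Pool.Agent.H265R2.CritP4c

set_option autoImplicit false

namespace Pool.Agent.H265R2.P5

open Finset Classical
open Pool.Agent.H265R2.CritP4 (nb mem_nb nb_subset ramsey NoConf)

universe u

variable {V : Type u}

theorem exists_big_indep [Fintype V] (G : SimpleGraph V) (K N : ℕ)
    (hclique : ∀ S : Finset V, (∀ x ∈ S, ∀ y ∈ S, x ≠ y → G.Adj x y) → S.card ≤ K + 1)
    (hcard : 2 ^ ((K + 2) + N) ≤ Fintype.card V) :
    ∃ I : Finset V, (∀ x ∈ I, ∀ y ∈ I, ¬ G.Adj x y) ∧ (∀ u, u ∉ I → (nb G I u).Nonempty) ∧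
      N ≤ I.card := by
  rcases ramsey G _ (K + 2) N le_rfl Finset.univ
    (by simpa using hcard) with ⟨S, -, hc, hS⟩ | ⟨S, -, hc, hS⟩
  · have := hclique S hS
    omega
  · -- extend to a maximal independent set
    have hfam : ((Finset.univ : Finset (Finset V)).filter
        (fun A => S ⊆ A ∧ ∀ x ∈ A, ∀ y ∈ A, ¬ G.Adj x y)).Nonempty :=
      ⟨S, by simp only [Finset.mem_filter, Finset.mem_univ, true_and]; exact ⟨subset_rfl, hS⟩⟩
    obtain ⟨I, hI, hImax⟩ := Finset.exists_max_image _ (fun A : Finset V => A.card) hfam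
    simp only [Finset.mem_filter, Finset.mem_univ, true_and] at hI hImax
    have hmax : ∀ u, u ∉ I → (nb G I u).Nonempty := by
      intro u hu
      by_contra hne
      rw [Finset.not_nonempty_iff_eq_empty] at hne
      have hnadj : ∀ x ∈ I, ¬ G.Adj u x := by
        intro x hx h
        have : x ∈ nb G I u := mem_nb.2 ⟨hx, h⟩
        rw [hne] at this
        simp at this
      have := hImax (insert u I) ⟨hI.1.trans (Finset.subset_insert _ _), by
        intro x hx y hy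
        rcases Finset.mem_insert.1 hx with h1 | h1 <;> rcases Finset.mem_insert.1 hy with h2 | h2
        · rw [h1, h2]; exact G.loopless.irrefl _
        · rw [h1]; exact hnadj y h2
        · rw [h2]; exact fun h => hnadj x h1 h.symm
        · exact hI.2 x h1 y h2⟩
      rw [Finset.card_insert_of_notMem hu] at this
      omega
    exact ⟨I, hI.2, hmax, by rw [← hc]; exact Finset.card_le_card hI.1⟩

theorem clique_bound [Fintype V] (G : SimpleGraph V) (K : ℕ) (hcol : G.Colorable (K + 1)) :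
    ∀ S : Finset V, (∀ x ∈ S, ∀ y ∈ S, x ≠ y → G.Adj x y) → S.card ≤ K + 1 := by
  intro S hS
  have : G.IsClique (S : Set V) := fun x hx y hy hxy => hS x hx y hy hxy
  exact this.card_le_of_colorable hcol

/-- A large `P₅`-free `(K+1)`-vertex-critical graph contains a long chain. -/
theorem big_chain [Fintype V] (G : SimpleGraph V) (hP : NoP5 G)
    (K : ℕ) (hnot : ¬ G.Colorable K) (hcol : G.Colorable (K + 1))
    (hcrit : ∀ v, (G.induce {v}ᶜ).Colorable K) (g m : ℕ) (hg : 1 ≤ g)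
    (hcard : 2 ^ ((K + 2) + thr g (K + 1) K (2 ^ ((K + 1 + 1) + m))) ≤ Fintype.card V) :
    ∃ I : Finset V, (∀ x ∈ I, ∀ y ∈ I, ¬ G.Adj x y) ∧ ∃ u : ℕ → V, Chain G I g u m := by
  obtain ⟨I, hI, hmax, hIc⟩ := exists_big_indep G K _ (clique_bound G K hcol) hcard
  obtain ⟨u, hu⟩ := exists_chain G hP I hI hmax K hnot hcrit (K + 1) (clique_bound G K hcol) g m hg
    hIc
  exact ⟨I, hI, u, hu⟩

theorem chair_false (G : SimpleGraph V) (hC : NoChair G) (I : Finset V)
    (hI : ∀ x ∈ I, ∀ y ∈ I, ¬ G.Adj x y) (u : ℕ → V) (hu : Chain G I 2 u 2) : False := by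
  have h1 : 1 < (nb G I (u 0) \ nb G I (u 1)).card := hu.gap 0 1 (by omega) (by omega)
  obtain ⟨b, hb, b', hb', hne⟩ := Finset.one_lt_card.1 h1
  rw [Finset.mem_sdiff] at hb hb'
  obtain ⟨a, ha⟩ := hu.nonempty (by omega) (show 1 < 2 by omega)
  have ha0 := hu.sub 0 1 (by omega) (by omega) ha
  have hb1 := mem_nb.1 hb.1
  have hb1' := mem_nb.1 hb'.1
  have ha1 := mem_nb.1 ha
  have ha2 := mem_nb.1 ha0
  exact hC (u 0) b b' a (u 1) hb1.2 hb1'.2 ha2.2 ha1.2.symm hne (hI b hb1.1 b' hb1'.1)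
    (hI b hb1.1 a ha1.1) (hI b' hb1'.1 a ha1.1) (fun h => hb.2 (mem_nb.2 ⟨hb1.1, h.symm⟩))
    (fun h => hb'.2 (mem_nb.2 ⟨hb1'.1, h.symm⟩)) (hu.nadj 0 1 (by omega) (by omega))

theorem square_false (G : SimpleGraph V) (hC : NoSquare G) (I : Finset V)
    (hI : ∀ x ∈ I, ∀ y ∈ I, ¬ G.Adj x y) (u : ℕ → V) (hu : Chain G I 2 u 3) : False := by
  have h1 : 1 < (nb G I (u 2)).card := hu.big 2 (by omega)
  obtain ⟨c, hc, c', hc', hne⟩ := Finset.one_lt_card.1 h1
  obtain ⟨x, hx1, hx2⟩ := hu.exists_gap (by omega) (show 0 < 1 by omega) (show 1 < 3 by omega)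
  obtain ⟨y, hy1, hy2⟩ := hu.exists_gap (by omega) (show 1 < 2 by omega) (show 2 < 3 by omega)
  have hsub := hu.sub 1 2 (by omega) (by omega)
  have hc1 := mem_nb.1 hc
  have hc1' := mem_nb.1 hc'
  have hd1 := mem_nb.1 (hsub hc)
  have hd1' := mem_nb.1 (hsub hc')
  have hxI := (mem_nb.1 hx1).1
  have hyI := mem_nb.1 hy1
  have hx3 : x ∉ nb G I (u 2) := fun h => hx2 (hsub h)
  have hx4 : ¬ G.Adj x (u 1) := fun h => hx2 (mem_nb.2 ⟨hxI, h.symm⟩)
  have hx5 : ¬ G.Adj x (u 2) := fun h => hx3 (mem_nb.2 ⟨hxI, h.symm⟩)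
  refine hC (u 1) c (u 2) c' x hd1.2 hc1.2.symm hc1'.2 hd1'.2.symm ?_ hne
    (hu.nadj 1 2 (by omega) (by omega)) (hI c hc1.1 c' hc1'.1) ?_ ?_ ?_ ?_ hx4
    (hI x hxI c hc1.1) hx5 (hI x hxI c' hc1'.1)
  · intro h
    exact hy2 (mem_nb.2 ⟨hyI.1, h ▸ hyI.2⟩)
  · intro h
    exact hu.out 1 (by omega) (h ▸ hxI)
  · intro h
    exact hx3 (h ▸ hc)
  · intro h
    exact hu.out 2 (by omega) (h ▸ hxI)
  · intro h
    exact hx3 (h ▸ hc')

/-- The six elementary forms. -/
theorem order_bound_elem (K : ℕ) : ∃ N : ℕ, ∀ (V : Type) [Fintype V] (G : SimpleGraph V),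
    ¬ G.Colorable K → G.Colorable (K + 1) → (∀ v, (G.induce {v}ᶜ).Colorable K) → NoP5 G →
    (NoConf G 1 ∨ NoChair G ∨ NoBull G ∨ NoCricket G ∨ NoSquare G ∨
      (∀ S : Finset V, (∀ x ∈ S, ∀ y ∈ S, ¬ G.Adj x y) → S.card < 5)) →
    Fintype.card V < N := by
  obtain ⟨L, hL⟩ : ∃ L : ℕ, L = (1 * K + 1) * (K + 2) + 1 := ⟨_, rfl⟩
  obtain ⟨N1, hN1⟩ : ∃ N : ℕ, N = 2 ^ ((K + 2) + CritP4.thr 1 K (2 * (K + 1) + 1)) := ⟨_, rfl⟩
  obtain ⟨N2, hN2⟩ : ∃ N : ℕ, N = 2 ^ ((K + 2) + thr 2 (K + 1) K (2 ^ ((K + 1 + 1) + 2))) :=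
    ⟨_, rfl⟩
  obtain ⟨N3, hN3⟩ : ∃ N : ℕ, N = 2 ^ ((K + 2) +
    thr 1 (K + 1) K (2 ^ ((K + 1 + 1) + ((K + 1 + 1) * (2 * L + 1))))) := ⟨_, rfl⟩
  obtain ⟨N4, hN4⟩ : ∃ N : ℕ, N = 2 ^ ((K + 2) +
    thr 20 (K + 1) K (2 ^ ((K + 1 + 1) + 2 * L))) := ⟨_, rfl⟩
  obtain ⟨N5, hN5⟩ : ∃ N : ℕ, N = 2 ^ ((K + 2) + thr 2 (K + 1) K (2 ^ ((K + 1 + 1) + 3))) :=
    ⟨_, rfl⟩
  obtain ⟨N6, hN6⟩ : ∃ N : ℕ, N = 2 ^ ((K + 2) + 5) := ⟨_, rfl⟩
  refine ⟨N1 + N2 + N3 + N4 + N5 + N6, ?_⟩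
  intro V _ G hnot hcol hcrit hP hH
  rcases hH with h | h | h | h | h | h
  · have : Fintype.card V < N1 := hN1 ▸ CritP4.card_bound G 1 K h hnot hcol hcrit
    omega
  · have : Fintype.card V < N2 := by
      by_contra hcon
      obtain ⟨I, hI, u, hu⟩ := big_chain G hP K hnot hcol hcrit 2 2 (by omega) (hN2 ▸ not_lt.1 hcon)
      exact chair_false G h I hI u hu
    omega
  · have : Fintype.card V < N3 := by
      by_contra hcon
      obtain ⟨I, hI, u, hu⟩ := big_chain G hP K hnot hcol hcrit 1 _ (by omega) (hN3 ▸ not_lt.1 hcon)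
      obtain ⟨v, hv, hv2⟩ := exists_free_interval G hP h I hI 1 le_rfl u (K + 1) (2 * L + 1)
        (clique_bound G K hcol) hu
      have := bull_bound G hP h I hI K hnot hcol hcrit 1 le_rfl L v hv hv2
      omega
    omega
  · have : Fintype.card V < N4 := by
      by_contra hcon
      obtain ⟨I, hI, u, hu⟩ := big_chain G hP K hnot hcol hcrit 20 _ (by omega) (hN4 ▸ not_lt.1 hcon)
      have := cricket_bound G hP h I hI K hnot hcol hcrit L u hu
      omega
    omega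
  · have : Fintype.card V < N5 := by
      by_contra hcon
      obtain ⟨I, hI, u, hu⟩ := big_chain G hP K hnot hcol hcrit 2 3 (by omega) (hN5 ▸ not_lt.1 hcon)
      exact square_false G h I hI u hu
    omega
  · have : Fintype.card V < N6 := by
      by_contra hcon
      obtain ⟨I, hI, _, hIc⟩ := exists_big_indep G K 5 (clique_bound G K hcol) (hN6 ▸ not_lt.1 hcon)
      have := h I hI
      omega
    omega

/-- Recognising an induced subgraph on five vertices. -/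
theorem embed5 (G : SimpleGraph V) (H : SimpleGraph (Fin 5)) (a b c d e : V)
    (n01 : a ≠ b) (n02 : a ≠ c) (n03 : a ≠ d) (n04 : a ≠ e) (n12 : b ≠ c) (n13 : b ≠ d)
    (n14 : b ≠ e) (n23 : c ≠ d) (n24 : c ≠ e) (n34 : d ≠ e)
    (h01 : G.Adj a b ↔ H.Adj 0 1) (h02 : G.Adj a c ↔ H.Adj 0 2) (h03 : G.Adj a d ↔ H.Adj 0 3)
    (h04 : G.Adj a e ↔ H.Adj 0 4) (h12 : G.Adj b c ↔ H.Adj 1 2) (h13 : G.Adj b d ↔ H.Adj 1 3)
    (h14 : G.Adj b e ↔ H.Adj 1 4) (h23 : G.Adj c d ↔ H.Adj 2 3) (h24 : G.Adj c e ↔ H.Adj 2 4)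
    (h34 : G.Adj d e ↔ H.Adj 3 4) : H.IsIndContained G := by
  let f : Fin 5 → V := ![a, b, c, d, e]
  have hinj : Function.Injective f := by
    intro x y hxy
    fin_cases x <;> fin_cases y <;>
      first
      | rfl
      | exact absurd hxy n01
      | exact absurd hxy n02
      | exact absurd hxy n03
      | exact absurd hxy n04
      | exact absurd hxy n12
      | exact absurd hxy n13
      | exact absurd hxy n14
      | exact absurd hxy n23
      | exact absurd hxy n24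
      | exact absurd hxy n34
      | exact absurd hxy n01.symm
      | exact absurd hxy n02.symm
      | exact absurd hxy n03.symm
      | exact absurd hxy n04.symm
      | exact absurd hxy n12.symm
      | exact absurd hxy n13.symm
      | exact absurd hxy n14.symm
      | exact absurd hxy n23.symm
      | exact absurd hxy n24.symm
      | exact absurd hxy n34.symm
  refine ⟨⟨⟨f, hinj⟩, ?_⟩⟩
  intro x y
  show G.Adj (f x) (f y) ↔ H.Adj x y
  have hs : ∀ {p q : V} {i j : Fin 5}, (G.Adj p q ↔ H.Adj i j) → (G.Adj q p ↔ H.Adj j i) := by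
    intro p q i j h
    rw [G.adj_comm, H.adj_comm]
    exact h
  have hr : ∀ (p : V) (i : Fin 5), (G.Adj p p ↔ H.Adj i i) := by
    intro p i
    exact ⟨fun h => absurd rfl h.ne, fun h => absurd rfl h.ne⟩
  fin_cases x <;> fin_cases y <;>
    first
    | exact hr _ _
    | exact h01
    | exact h02
    | exact h03
    | exact h04
    | exact h12
    | exact h13
    | exact h14
    | exact h23
    | exact h24
    | exact h34
    | exact hs h01
    | exact hs h02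
    | exact hs h03
    | exact hs h04
    | exact hs h12
    | exact hs h13
    | exact hs h14
    | exact hs h23
    | exact hs h24
    | exact hs h34

end Pool.Agent.H265R2.P5
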